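import Pool.Agent.L0h12.PT.Main
import Pool.Agent.R917.DT.Mat

/-!
# Abelian varieties of unitary type are determined by their endomorphisms
-/

set_option autoImplicit false
set_option linter.unusedSectionVars false
set_option linter.unusedVariables false

open Module Function TensorProduct Matrix NumberField

noncomputable section

namespace Pool.Agent.L0h12.PT

open Pool.Agent.Y102 Pool.Agent.W516.DR Pool.Agent.H204R3.GP
  Pool.Agent.TH119.MX Pool.Agent.R917 Pool.Agent.N208.AM Pool.Agent.L0h12.CM Pool.Agent.R917.DT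

variable {g : ℕ} {A : AbVar g}

/-- Closure under replicas, for additive functions of the eigenvalues. -/
theorem rc_mem {𝔥 : Submodule ℚ (Module.End ℚ A.H1)} (hRC : RC 𝔥) {n' : ℕ}
    {b : Basis (Fin n') ℂ (ℂ ⊗[ℚ] A.H1)} {X Y : Module.End ℚ A.H1} {x y : Fin n' → ℂ}
    (hX : X ∈ 𝔥) (hx : ∀ k, X.baseChange ℂ (b k) = x k • b k)
    (hy : ∀ k, Y.baseChange ℂ (b k) = y k • b k) (f : ℂ →+ ℂ) (hf : ∀ k, f (x k) = y k) :
    Y ∈ 𝔥 := by
  classical
  let S : Finset ℂ := Finset.univ.image x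
  let Q : Polynomial ℂ := Lagrange.interpolate S id fun a => f a
  have hQ : ∀ a ∈ S, Q.eval a = f a := fun a ha =>
    Lagrange.eval_interpolate_at_node (v := id) (fun a => f a) Function.injective_id.injOn ha
  have hP : ∀ (P : Polynomial ℂ) (k : Fin n'),
      Polynomial.aeval (X.baseChange ℂ : Module.End ℂ (ℂ ⊗[ℚ] A.H1)) P (b k) =
        P.eval (x k) • b k := fun P k =>
    Module.End.aeval_apply_of_hasEigenvector
      ⟨Module.End.mem_eigenspace_iff.2 (hx k), b.ne_zero k⟩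
  have hS : Polynomial.aeval (toC X) (∏ a ∈ S, (Polynomial.X - Polynomial.C a)) = 0 := by
    apply (matE (2 * g)).injective
    rw [matE_aeval, map_zero]
    refine b.ext fun k => ?_
    rw [hP, Polynomial.eval_prod, Finset.prod_eq_zero (Finset.mem_image_of_mem x (Finset.mem_univ k)),
      zero_smul, LinearMap.zero_apply]
    rw [Polynomial.eval_sub, Polynomial.eval_X, Polynomial.eval_C, sub_self]
  have h1 := rc_iff.1 hRC X hX S f Q hS hQ
  have h2 := Submodule.mem_map_of_mem (f := (matE (2 * g)).toLinearMap) h1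
  rw [map_lie] at h2
  change matE (2 * g) (Polynomial.aeval (toC X) Q) ∈ cx 𝔥 at h2
  rw [matE_aeval] at h2
  refine mem_of_bc ?_
  have h3 : Polynomial.aeval (X.baseChange ℂ : Module.End ℂ (ℂ ⊗[ℚ] A.H1)) Q =
      Y.baseChange ℂ := by
    refine b.ext fun k => ?_
    rw [hP, hQ _ (Finset.mem_image_of_mem x (Finset.mem_univ k)), hf, hy]
  rw [← h3]
  exact h2

variable {E : Type} [Field E] [NumberField E] [IsCMField E] {m : ℕ}
  {ω : (E →+* ℂ) → Fin m → Module.End ℂ (ℂ ⊗[ℚ] A.H1)}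

/-- **Abelian varieties of unitary type are determined.** -/
theorem det_U (hE : SignRich E) (hm : m = 1 ∨ (Even m ∧ m ≠ 0)) (hA : CM.IsUnit A ω) :
    Det A := by
  intro 𝔥 hq hRC X hX
  rcases subsingleton_or_nontrivial (Module.End ℂ (ℂ ⊗[ℚ] A.H1)) with hs | hnt
  · refine mem_of_bc ?_
    rw [Subsingleton.elim (X.baseChange ℂ) 0]
    exact Submodule.zero_mem _
  have hm0 : m ≠ 0 := by
    rcases hm with h | h
    · omega
    · exact h.2
  have hder : ∀ X ∈ A.NA, ∀ Y ∈ A.NA, X * Y - Y * X ∈ 𝔥 := by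
    rcases hm with h | h
    · subst h
      intro X hX Y hY
      rw [comm_one hA X hX Y hY]
      exact Submodule.zero_mem _
    · exact der_even' hq h.1 hA
  have hder' : Pool.Agent.Y102.der A.NA ≤ 𝔥 := by
    unfold Pool.Agent.Y102.der
    rw [Submodule.span_le]
    rintro _ ⟨X, hX, Y, hY, rfl⟩
    exact hder X hX Y hY
  obtain ⟨Y, hY, δ, hδ, hXe, hcomm⟩ := Pool.Agent.N208.AM.full_NA.dec hX
  rw [hXe]
  refine 𝔥.add_mem ?_ (hder' hδ)
  have hYC : Y ∈ A.CN := ⟨hY, fun Z hZ => (hcomm Z hZ).symm⟩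
  clear hXe hδ hcomm hX
  obtain ⟨n', b, χ, hb⟩ := A.exists_basis
  obtain ⟨X, ⟨hXN, hXq⟩, hXg⟩ := exists_generic (𝔠 := A.CN ⊓ 𝔥)
    (inf_le_left.trans A.CN_le_ZA) χ
  have hgen : ∀ T : Module.End ℚ A.H1,
      (∀ Y ∈ A.NA, ∀ Z ∈ A.NA, T * (Y * Z - Z * Y) = (Y * Z - Z * Y) * T) →
      T * X = X * T → ∀ Z ∈ A.CN, T * Z = Z * T := by
    intro T hT hTX Z hZ
    have h1 : ∀ Q ∈ 𝔥, Q * T = T * Q := by
      intro Q hQ
      obtain ⟨Z', hZ', d', hd', hQe, hcomm⟩ := hq.dec hQ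
      have hZ'N : Z' ∈ A.CN := ⟨hq.le hZ', fun Y hY =>
        hq.comm Z' (fun X hX => (hcomm X hX).symm) Y hY⟩
      have e1 : T * Z' = Z' * T :=
        A.comm_of_generic hb (X := X) (R := ⟨Z', A.CN_le_ZA hZ'N⟩)
          (fun i j hij => hXg i j hij ⟨Z', A.CN_le_ZA hZ'N⟩ ⟨hZ'N, hZ'⟩) hTX
      have e2 : T * d' = d' * T := by
        clear hQe
        induction hd' using Submodule.span_induction with
        | mem z hz =>
          obtain ⟨x, hx, y, hy, rfl⟩ := hz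
          exact hT x (hq.le hx) y (hq.le hy)
        | zero => rw [mul_zero, zero_mul]
        | add a b _ _ ha hb => rw [mul_add, add_mul, ha, hb]
        | smul c a _ ha => rw [mul_smul_comm, smul_mul_assoc, ha]
      rw [hQe, add_mul, mul_add, e1, e2]
    exact (hq.comm T h1 Z hZ.1).symm
  obtain ⟨x, hx, hX'⟩ := hA.cen X hXN
  obtain ⟨y, hy, hY'⟩ := hA.cen Y hYC
  obtain ⟨f, hf, -⟩ := exists_f hA hb (X := X) (Y := ⟨Y, A.CN_le_ZA hYC⟩) hx hy hX' hY'
    (fun h hodd hrel => no_rel hE hm0 hA hx hX' hgen h hodd hrel)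
  exact rc_mem hRC (x := fun k => χ k X) (y := fun k => χ k ⟨Y, A.CN_le_ZA hYC⟩) hXq
    (fun k => hb k X) (fun k => hb k ⟨Y, A.CN_le_ZA hYC⟩) f.toAddMonoidHom hf

end Pool.Agent.L0h12.PT
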