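import Pool.Agent.TH119.MX.Poly

/-!
# Replicas: the Lie algebra of an algebraic group is stable under additive functions of the
# eigenvalues
-/

set_option autoImplicit false
set_option linter.unusedSectionVars false

namespace Pool.Agent.L0h12.PT

open Finset Matrix Pool.Agent.TH119.MX Pool.Agent.TH119.DR Pool.Agent.W437.HK

variable {B : Type} [Fintype B] [DecidableEq B]

/-- The weight of a coordinate. -/
def wgt (α : B → ℂ) (o : Option (B × B)) : ℂ := o.elim 0 (fun p => α p.2)

theorem LL_diag (α : B → ℂ) (o o' : Option (B × B)) :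
    LL (diagonal α) o o' = if o = o' then wgt α o else 0 := by
  rcases o with _ | ⟨i, j⟩ <;> rcases o' with _ | ⟨i', j'⟩ <;>
    simp only [LL, wgt, Matrix.of_apply, Option.elim_some, Option.elim_none, reduceCtorEq,
      if_false, if_true]
  by_cases h : i = i'
  · subst h
    rw [if_pos rfl]
    by_cases h' : j = j'
    · subst h'
      rw [if_pos rfl, diagonal_apply_eq]
    · rw [if_neg (fun e => h' (by
        have := Option.some.inj e
        exact (Prod.mk.inj this).2)), diagonal_apply_ne _ (Ne.symm h')]
  · rw [if_neg h, if_neg (fun e => h (by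
      have := Option.some.inj e
      exact (Prod.mk.inj this).1))]

theorem act_diag (α : B → ℂ) {d : ℕ} (w : (Fin d → Option (B × B)) → ℂ)
    (I : Fin d → Option (B × B)) :
    act (LL (diagonal α)) w I = (∑ k, wgt α (I k)) * w I := by
  unfold act
  rw [Finset.sum_mul]
  refine Finset.sum_congr rfl fun k _ => ?_
  rw [Finset.sum_eq_single (I k)]
  · rw [Function.update_eq_self, LL_diag, if_pos rfl]
  · intro o _ ho
    rw [LL_diag, if_neg ho, zero_mul]
  · intro h
    exact absurd (Finset.mem_univ _) h

section lag

variable {J : Type} [Fintype J] {U : Submodule ℂ (J → ℂ)} {β : J → ℂ}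

theorem poly_mem (hU : ∀ w ∈ U, (fun I => β I * w I) ∈ U) (p : Polynomial ℂ) :
    ∀ w ∈ U, (fun I => p.eval (β I) * w I) ∈ U := by
  induction p using Polynomial.induction_on with
  | C a =>
    intro w hw
    have h := U.smul_mem a hw
    convert h using 1
    funext I
    rw [Polynomial.eval_C, Pi.smul_apply, smul_eq_mul]
  | add p q hp hq =>
    intro w hw
    have h := U.add_mem (hp w hw) (hq w hw)
    convert h using 1
    funext I
    rw [Polynomial.eval_add, Pi.add_apply, add_mul]
  | monomial n a h =>
    intro w hw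
    have h1 := h _ (hU w hw)
    convert h1 using 1
    funext I
    simp only [Polynomial.eval_mul, Polynomial.eval_C, Polynomial.eval_pow, Polynomial.eval_X]
    ring

theorem fun_mem (hU : ∀ w ∈ U, (fun I => β I * w I) ∈ U) (f : ℂ → ℂ) :
    ∀ w ∈ U, (fun I => f (β I) * w I) ∈ U := by
  classical
  intro w hw
  have h := poly_mem hU (Lagrange.interpolate (Finset.univ.image β) id f) w hw
  convert h using 1
  funext I
  congr 1
  have h1 := Lagrange.eval_interpolate_at_node (s := Finset.univ.image β) (v := id) f
    (Function.injective_id.injOn) (Finset.mem_image_of_mem β (Finset.mem_univ I))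
  exact h1.symm

end lag

variable {H : Set (Matrix B B ℂ)}

/-- **Replicas.** -/
theorem stab_replica {S S' : Matrix B B ℂ} (h1 : S * S' = 1) (h2 : S' * S = 1) (f : ℂ →+ ℂ)
    {α : B → ℂ} {d : ℕ} (h : Stab H d (S * diagonal α * S')) :
    Stab H d (S * diagonal (fun i => f (α i)) * S') := by
  have htw : ∀ Y : Matrix B B ℂ, MM S * LL (S * Y * S') = LL Y * MM S := by
    intro Y
    rw [MM_mul_LL, LL_mul_MM, Matrix.mul_assoc, h2, Matrix.mul_one]
  set U : Submodule ℂ ((Fin d → Option (B × B)) → ℂ) := (Wt H d).comap (pullL (MM S)) with hU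
  have hmem : ∀ w, w ∈ U ↔ pull (MM S) w ∈ Wt H d := fun w => by
    rw [hU, Submodule.mem_comap, pullL_apply]
  have hstab : ∀ w ∈ U, (fun I => (∑ k, wgt α (I k)) * w I) ∈ U := by
    intro w hw
    have e : (fun I => (∑ k, wgt α (I k)) * w I) = act (LL (diagonal α)) w := by
      funext I
      rw [act_diag]
    rw [e, hmem, ← act_pull (htw _)]
    exact h _ ((hmem w).1 hw)
  have h3 := fun_mem hstab f
  intro u hu
  have e1 : pull (MM S) (pull (MM S') u) = u := by
    rw [pull_pull, MM_mul_MM, h1]
    have e2 : MM (1 : Matrix B B ℂ) = 1 := by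
      have := MM_eq (0 : Matrix B B ℂ) 0
      rwa [zero_smul, zero_smul, add_zero, add_zero] at this
    rw [e2, pull_one]
  have h4 : pull (MM S') u ∈ U := (hmem _).2 (by rw [e1]; exact hu)
  have h5 := h3 _ h4
  have e3 : (fun I => f (∑ k, wgt α (I k)) * pull (MM S') u I) =
      act (LL (diagonal fun i => f (α i))) (pull (MM S') u) := by
    funext I
    rw [act_diag]
    congr 1
    rw [map_sum]
    refine Finset.sum_congr rfl fun k _ => ?_
    unfold wgt
    rcases I k with _ | p
    · simp
    · rfl
  rw [e3, hmem, ← act_pull (htw _), e1] at h5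
  exact h5

end Pool.Agent.L0h12.PT
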