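import Pool.Agent.N208.AM.MainB
import Pool.Agent.L0h12.PT.Rep

/-!
# Simultaneous diagonalization of the centre on a motive
-/

set_option autoImplicit false
set_option linter.unusedSectionVars false

open Module Function TensorProduct Matrix

noncomputable section

namespace Pool.Agent.L0h12.PT

open Pool.Agent.Y102 Pool.Agent.W516.DR Pool.Agent.H204R3.GP Pool.Agent.W516.KC
  Pool.Agent.H204R3.SP Pool.Agent.TH119.MX Pool.Agent.R917 Pool.Agent.N208.AM

variable {g : ℕ} {A : AbVar g}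

section form

variable {κ : Type} [Fintype κ] [DecidableEq κ]

/-- The complexification of a form. -/
abbrev bc (φ : MultilinearMap ℚ (fun _ : κ => A.H1) ℚ) :
    MultilinearMap ℂ (fun _ : κ => ℂ ⊗[ℚ] A.H1) ℂ := bcm (Ω := ℂ) (finBasis ℚ A.H1) φ

theorem bc_sum {m : ℕ} (φ : Fin m → MultilinearMap ℚ (fun _ : κ => A.H1) ℚ) (x : Fin m → ℚ) :
    bc (∑ a, x a • φ a) = ∑ a, (x a : ℂ) • bc (φ a) := by
  refine Basis.ext_multilinear (fun _ => (finBasis ℚ A.H1).baseChange ℂ) fun J => ?_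
  rw [_root_.sum_apply]
  rw [bcm_basis, _root_.sum_apply, map_sum]
  refine Finset.sum_congr rfl fun a _ => ?_
  rw [_root_.smul_apply, _root_.smul_apply, bcm_basis, smul_eq_mul, smul_eq_mul,
    map_mul]
  rfl

theorem bc_smul (c : ℚ) (φ : MultilinearMap ℚ (fun _ : κ => A.H1) ℚ) :
    bc (c • φ) = (c : ℂ) • bc φ := by
  have h := bc_sum (m := 1) (fun _ => φ) (fun _ => c)
  simpa using h

theorem bc_dact (X : Module.End ℚ A.H1) (φ : MultilinearMap ℚ (fun _ : κ => A.H1) ℚ) :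
    bc (dact X φ) = dact (X.baseChange ℂ) (bc φ) := by
  refine Basis.ext_multilinear (fun _ => (finBasis ℚ A.H1).baseChange ℂ) fun J => ?_
  rw [bcm_basis, dact_apply, dact_apply, map_sum]
  refine Finset.sum_congr rfl fun k _ => ?_
  rw [← bcm_one (Ω := ℂ) (finBasis ℚ A.H1) φ]
  congr 1
  funext l
  by_cases hl : l = k
  · subst hl
    rw [update_self, update_self, Basis.baseChange_apply, LinearMap.baseChange_tmul]
  · rw [update_of_ne hl, update_of_ne hl, Basis.baseChange_apply]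

variable {n' : ℕ} {b : Basis (Fin n') ℂ (ℂ ⊗[ℚ] A.H1)} {χ : Fin n' → (A.ZA →ₗ[ℚ] ℂ)}

theorem bc_eigen
    (hb : ∀ k (R : A.ZA), (R : Module.End ℚ A.H1).baseChange ℂ (b k) = χ k R • b k) (R : A.ZA)
    (φ : MultilinearMap ℚ (fun _ : κ => A.H1) ℚ) (I : κ → Fin n') :
    bc (dact (R : Module.End ℚ A.H1) φ) (fun k => b (I k)) =
      (∑ k, χ (I k) R) * bc φ (fun k => b (I k)) := by
  rw [bc_dact, dact_apply, Finset.sum_mul]
  refine Finset.sum_congr rfl fun k _ => ?_
  rw [hb, MultilinearMap.map_update_smul, smul_eq_mul]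
  congr 2
  exact update_eq_self k (fun l => b (I l))

end form

variable {s n : ℕ} {r : Fin s → ℕ} {B : Fin n → Ten A r}

theorem indep (hB : LinearIndependent ℚ B) {n' : ℕ} (b : Basis (Fin n') ℂ (ℂ ⊗[ℚ] A.H1))
    {x : Fin n → ℂ} (h : ∀ i (I : Fin (r i) → Fin n'),
      ∑ a, x a * bc (B a i) (fun k => b (I k)) = 0) : x = 0 := by
  have h1 : ∀ i, ∑ a, x a • bc (B a i) = 0 := by
    intro i
    refine Basis.ext_multilinear (fun _ => b) fun I => ?_
    rw [_root_.sum_apply]
    exact h i I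
  have h2 : ∀ i (v : Fin (r i) → A.H1), ∑ a, x a * (B a i v : ℂ) = 0 := by
    intro i v
    have h3 := congrArg (fun ψ : MultilinearMap ℂ (fun _ : Fin (r i) => ℂ ⊗[ℚ] A.H1) ℂ =>
      ψ (fun l => (1 : ℂ) ⊗ₜ[ℚ] v l)) (h1 i)
    simp only [_root_.sum_apply, _root_.smul_apply, smul_eq_mul,
      _root_.zero_apply] at h3
    rw [← h3]
    refine Finset.sum_congr rfl fun a _ => ?_
    rw [bcm_one]
    rfl
  have h4 : ∀ lam : ℂ →ₗ[ℚ] ℚ, ∀ a, lam (x a) = 0 := by
    intro lam
    refine Fintype.linearIndependent_iff.1 hB (fun a => lam (x a)) ?_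
    funext i
    refine MultilinearMap.ext fun v => ?_
    rw [Finset.sum_apply, _root_.sum_apply]
    have h5 := congrArg lam (h2 i v)
    rw [map_zero, map_sum] at h5
    refine Eq.trans (Finset.sum_congr rfl fun a _ => ?_) h5
    have h6 : x a * ((B a i v : ℚ) : ℂ) = (B a i v) • x a := by rw [Rat.smul_def, mul_comm]
    rw [h6, map_smul]
    show lam (x a) • B a i v = _
    rw [smul_eq_mul, smul_eq_mul, mul_comm]
  funext a
  exact (Module.forall_dual_apply_eq_zero_iff ℚ (x a)).1 fun lam => h4 lam a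

/-- **The diagonalization.** -/
theorem exists_dia (hB : LinearIndependent ℚ B) {n' : ℕ} {b : Basis (Fin n') ℂ (ℂ ⊗[ℚ] A.H1)}
    {χ : Fin n' → (A.ZA →ₗ[ℚ] ℂ)}
    (hb : ∀ k (R : A.ZA), (R : Module.End ℚ A.H1).baseChange ℂ (b k) = χ k R • b k) :
    ∃ (S S' : Matrix (Fin n) (Fin n) ℂ) (row : Fin n → Σ i, (Fin (r i) → Fin n')),
      S * S' = 1 ∧ S' * S = 1 ∧
      (∀ (R : A.ZA) (M : Matrix (Fin n) (Fin n) ℚ), Rel B (R : Module.End ℚ A.H1) M →
        cq M = S * diagonal (fun j => ∑ k, χ ((row j).2 k) R) * S') ∧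
      ∀ (w : Fin s → ℤ) (M : Matrix (Fin n) (Fin n) ℚ), WRel w B M →
        cq M = S * diagonal (fun j => ((((r (row j).1 : ℚ) - 2 * w (row j).1 : ℚ)) : ℂ)) * S' := by
  classical
  let v : (Σ i, (Fin (r i) → Fin n')) → (Fin n → ℂ) := fun p a =>
    bc (B a p.1) (fun k => b (p.2 k))
  have hspan : Submodule.span ℂ (Set.range v) = ⊤ := by
    by_contra hne
    obtain ⟨f, hf0, hf⟩ := Submodule.exists_le_ker_of_lt_top _ (lt_top_iff_ne_top.2 hne)
    apply hf0
    have hx : (fun a => f (Pi.single a 1)) = 0 := by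
      refine indep hB b fun i I => ?_
      have h1 : f (v ⟨i, I⟩) = 0 := hf (Submodule.subset_span ⟨_, rfl⟩)
      rw [← h1]
      conv_rhs => rw [← LinearMap.sum_single_apply (fun _ : Fin n => ℂ) (v ⟨i, I⟩)]
      rw [map_sum]
      refine Finset.sum_congr rfl fun a _ => ?_
      have h2 : (Pi.single a (v ⟨i, I⟩ a) : Fin n → ℂ) =
          (v ⟨i, I⟩ a) • (Pi.single a 1 : Fin n → ℂ) := by
        rw [← Pi.single_smul, smul_eq_mul, mul_one]
      rw [h2, map_smul, smul_eq_mul, mul_comm]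
    refine LinearMap.pi_ext fun a c => ?_
    have h3 : (Pi.single a c : Fin n → ℂ) = c • Pi.single a 1 := by
      rw [← Pi.single_smul, smul_eq_mul, mul_one]
    rw [h3, map_smul, congrFun hx a]
    simp
  obtain ⟨κ, a, -, ha1, ha2⟩ := exists_linearIndependent' ℂ v
  let bas : Basis κ ℂ (Fin n → ℂ) := Basis.mk ha2 (by rw [ha1, hspan])
  let e : κ ≃ Fin n := bas.indexEquiv (Pi.basisFun ℂ (Fin n))
  let row : Fin n → Σ i, (Fin (r i) → Fin n') := fun j => a (e.symm j)
  have hli : LinearIndependent ℂ (fun j => v (row j)) := ha2.comp _ e.symm.injective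
  let S' : Matrix (Fin n) (Fin n) ℂ := Matrix.of fun j c => v (row j) c
  have hU : IsUnit S' := by
    rw [← Matrix.linearIndependent_rows_iff_isUnit]
    exact hli
  have hdet : IsUnit S'.det := (Matrix.isUnit_iff_isUnit_det S').1 hU
  have e1 : S'⁻¹ * S' = 1 := Matrix.nonsing_inv_mul _ hdet
  have e2 : S' * S'⁻¹ = 1 := Matrix.mul_nonsing_inv _ hdet
  have key : ∀ (M : Matrix (Fin n) (Fin n) ℚ) (δ : Fin n → ℂ),
      (∀ j c, ∑ c', v (row j) c' * (M c' c : ℂ) = δ j * v (row j) c) →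
      cq M = S'⁻¹ * diagonal δ * S' := by
    intro M δ h
    have h1 : S' * cq M = diagonal δ * S' := by
      ext j c
      rw [Matrix.mul_apply, Matrix.diagonal_mul]
      exact h j c
    calc cq M = (S'⁻¹ * S') * cq M := by rw [e1, Matrix.one_mul]
      _ = S'⁻¹ * diagonal δ * S' := by rw [Matrix.mul_assoc, h1, Matrix.mul_assoc]
  refine ⟨S'⁻¹, S', row, e1, e2, fun R M hM => key M _ fun j c => ?_,
    fun w M hM => key M _ fun j c => ?_⟩
  · have h1 := bc_eigen hb R (B c (row j).1) (row j).2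
    rw [hM c (row j).1, bc_sum, _root_.sum_apply] at h1
    rw [← h1]
    refine Finset.sum_congr rfl fun c' _ => ?_
    rw [_root_.smul_apply, smul_eq_mul, mul_comm]
  · have h1 : bc (((r (row j).1 : ℚ) - 2 * w (row j).1) • B c (row j).1)
        (fun k => b ((row j).2 k)) =
        bc (∑ c', M c' c • B c' (row j).1) (fun k => b ((row j).2 k)) := by
      rw [hM c (row j).1]
    rw [bc_sum, _root_.sum_apply, bc_smul, _root_.smul_apply, smul_eq_mul] at h1
    rw [h1]
    refine Finset.sum_congr rfl fun c' _ => ?_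
    rw [_root_.smul_apply, smul_eq_mul, mul_comm]

/-- Additive functions with given values. -/
theorem exists_add {ι : Type} [Fintype ι] (v u : ι → ℂ)
    (h : ∀ c : ι → ℚ, ∑ i, (c i : ℂ) * v i = 0 → ∑ i, (c i : ℂ) * u i = 0) :
    ∃ f : ℂ →ₗ[ℚ] ℂ, ∀ i, f (v i) = u i := by
  classical
  let F : (ι → ℚ) →ₗ[ℚ] ℂ := Fintype.linearCombination ℚ v
  let G : (ι → ℚ) →ₗ[ℚ] ℂ := Fintype.linearCombination ℚ u
  have hF : ∀ c, F c = ∑ i, (c i : ℂ) * v i := fun c => by
    simp only [F, Fintype.linearCombination_apply, Rat.smul_def]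
  have hG : ∀ c, G c = ∑ i, (c i : ℂ) * u i := fun c => by
    simp only [G, Fintype.linearCombination_apply, Rat.smul_def]
  have hk : LinearMap.ker F ≤ LinearMap.ker G := by
    intro c hc
    rw [LinearMap.mem_ker, hF] at hc
    rw [LinearMap.mem_ker, hG]
    exact h c hc
  let G' := (LinearMap.ker F).liftQ G hk
  let f0 : LinearMap.range F →ₗ[ℚ] ℂ := G' ∘ₗ (F.quotKerEquivRange.symm : LinearMap.range F →ₗ[ℚ] _)
  obtain ⟨f, hf⟩ := f0.exists_extend
  refine ⟨f, fun i => ?_⟩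
  have h1 : F (Pi.single i 1) = v i := by
    rw [hF, Finset.sum_eq_single i]
    · rw [Pi.single_eq_same, Rat.cast_one, one_mul]
    · intro j _ hj
      rw [Pi.single_eq_of_ne hj, Rat.cast_zero, zero_mul]
    · intro hi
      exact absurd (Finset.mem_univ _) hi
  have h2 : G (Pi.single i 1) = u i := by
    rw [hG, Finset.sum_eq_single i]
    · rw [Pi.single_eq_same, Rat.cast_one, one_mul]
    · intro j _ hj
      rw [Pi.single_eq_of_ne hj, Rat.cast_zero, zero_mul]
    · intro hi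
      exact absurd (Finset.mem_univ _) hi
  have h3 : f0 ⟨F (Pi.single i 1), LinearMap.mem_range_self F _⟩ = u i := by
    change G' (F.quotKerEquivRange.symm ⟨F (Pi.single i 1), _⟩) = u i
    have h4 : F.quotKerEquivRange.symm ⟨F (Pi.single i 1), LinearMap.mem_range_self F _⟩ =
        (LinearMap.ker F).mkQ (Pi.single i 1) := by
      rw [LinearEquiv.symm_apply_eq]
      rfl
    rw [h4]
    change (LinearMap.ker F).liftQ G hk ((LinearMap.ker F).mkQ (Pi.single i 1)) = u i
    rw [Submodule.mkQ_apply, Submodule.liftQ_apply, h2]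
  rw [← h1, ← h3, ← hf]
  rfl

end Pool.Agent.L0h12.PT
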