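import Pool.Agent.L0h12.PT.Dia
import Pool.Agent.L0h12.CM.Fin

/-!
# The Mumford-Tate group is contained in every algebraic group with a torsor which contains the
# periods, for motives of unitary type
-/

set_option autoImplicit false
set_option linter.unusedSectionVars false
set_option linter.unusedVariables false

open Module Function TensorProduct Matrix NumberField

noncomputable section

namespace Pool.Agent.L0h12.PT

open Pool.Agent.Y102 Pool.Agent.W516.DR Pool.Agent.H204R3.GP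
  Pool.Agent.TH119.MX Pool.Agent.R917 Pool.Agent.N208.AM Pool.Agent.L0h12.CM

variable {g : ℕ} {A : AbVar g}

/-- There is a generic element. -/
theorem exists_generic {𝔠 : Submodule ℚ (Module.End ℚ A.H1)} (hc : 𝔠 ≤ A.ZA) {n : ℕ}
    (χ : Fin n → (A.ZA →ₗ[ℚ] ℂ)) :
    ∃ R : A.ZA, (R : Module.End ℚ A.H1) ∈ 𝔠 ∧ ∀ i j, χ i R = χ j R →
      ∀ R' : A.ZA, (R' : Module.End ℚ A.H1) ∈ 𝔠 → χ i R' = χ j R' := by
  classical
  obtain ⟨P, hP⟩ : ∃ P : Fin n → Fin n → Prop, ∀ i j, P i j ↔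
      ¬∀ R' : A.ZA, (R' : Module.End ℚ A.H1) ∈ 𝔠 → χ i R' = χ j R' := ⟨_, fun i j => Iff.rfl⟩
  obtain ⟨K, hKdef⟩ : ∃ K : {p : Fin n × Fin n // P p.1 p.2} → Subspace ℚ 𝔠,
      ∀ p (R : 𝔠), R ∈ K p ↔
        χ p.1.1 ⟨R, hc R.2⟩ = χ p.1.2 ⟨R, hc R.2⟩ :=
    ⟨fun p => LinearMap.ker ((χ p.1.1 - χ p.1.2) ∘ₗ Submodule.inclusion hc),
      fun p R => sub_eq_zero⟩
  have hK : ∀ p, K p ≠ ⊤ := by
    rintro ⟨⟨i, j⟩, hij⟩ htop
    refine (hP i j).1 hij fun R hR => ?_
    have h2 : (⟨R, hR⟩ : 𝔠) ∈ K ⟨⟨i, j⟩, hij⟩ := by rw [htop]; trivial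
    exact (hKdef _ _).1 h2
  by_contra hne
  push Not at hne
  have hcov : ⋃ p, (K p : Set 𝔠) = Set.univ := by
    rw [Set.eq_univ_iff_forall]
    intro R
    obtain ⟨i, j, h1, R', h2, h3⟩ := hne ⟨R.1, hc R.2⟩ R.2
    exact Set.mem_iUnion.2 ⟨⟨(i, j), (hP i j).2 fun h4 => h3 (h4 R' h2)⟩, (hKdef _ _).2 h1⟩
  obtain ⟨p, hp⟩ := Subspace.exists_eq_top_of_iUnion_eq_univ (k := ℚ) (E := 𝔠) (p := K) hcov
  exact hK p hp

variable {E : Type} [Field E] [NumberField E] [IsCMField E] {m : ℕ}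
  {ω : (E →+* ℂ) → Fin m → Module.End ℂ (ℂ ⊗[ℚ] A.H1)}

/-- The additive function. -/
theorem exists_f (hA : CM.IsUnit A ω) {n' : ℕ} {b : Basis (Fin n') ℂ (ℂ ⊗[ℚ] A.H1)}
    {χ : Fin n' → (A.ZA →ₗ[ℚ] ℂ)}
    (hb : ∀ k (R : A.ZA), (R : Module.End ℚ A.H1).baseChange ℂ (b k) = χ k R • b k)
    {X Y : A.ZA} {x y : E} (hx : IsCMField.complexConj E x = -x)
    (hy : IsCMField.complexConj E y = -y)
    (hX : (X : Module.End ℚ A.H1).baseChange ℂ = rho ω x)
    (hY : (Y : Module.End ℚ A.H1).baseChange ℂ = rho ω y)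
    (hgen : ∀ h : (E →+* ℂ) → ℚ, (∀ σ, h (bar σ) = -h σ) →
      ∑ σ, (h σ : ℂ) * σ x = 0 → h = 0) :
    ∃ f : ℂ →ₗ[ℚ] ℂ, (∀ k, f (χ k X) = χ k Y) ∧ f 1 = 0 := by
  have hm : ∀ k, ∃ m : (E →+* ℂ) → ℕ, χ k X = 2⁻¹ * ∑ σ, (m σ : ℂ) * σ x ∧
      χ k Y = 2⁻¹ * ∑ σ, (m σ : ℂ) * σ y := fun k =>
    exists_mult hA x y (b.ne_zero k) (by rw [← hX, hb]) (by rw [← hY, hb])
  choose mk hmx hmy using hm
  obtain ⟨f, hf⟩ := exists_add (ι := Option (Fin n')) (fun o => o.elim 1 fun k => χ k X)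
    (fun o => o.elim 0 fun k => χ k Y) (by
    intro c hc
    rw [Fintype.sum_option] at hc ⊢
    simp only [Option.elim_none, Option.elim_some, mul_one, mul_zero, zero_add] at hc ⊢
    let Hh : (E →+* ℂ) → ℚ := fun σ => ∑ k, c (some k) * (mk k σ : ℚ)
    have hs : ∀ (z : E) (d : Fin n' → ℂ), (∀ k, d k = 2⁻¹ * ∑ σ, (mk k σ : ℂ) * σ z) →
        ∑ k, (c (some k) : ℂ) * d k = 2⁻¹ * ∑ σ, (Hh σ : ℂ) * σ z := by
      intro z d hd
      simp only [hd, Hh, Rat.cast_sum, Rat.cast_mul, Rat.cast_natCast, Finset.sum_mul,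
        Finset.mul_sum]
      rw [Finset.sum_comm]
      exact Finset.sum_congr rfl fun σ _ => Finset.sum_congr rfl fun k _ => by ring
    rw [hs y _ hmy]
    rw [hs x _ hmx] at hc
    set T : ℂ := ∑ σ, (Hh σ : ℂ) * σ x with hT
    have hbar : ∀ z : E, IsCMField.complexConj E z = -z →
        ∑ σ, (Hh (bar σ) : ℂ) * σ z = -∑ σ, (Hh σ : ℂ) * σ z := by
      intro z hz
      rw [← sum_bar fun σ => (Hh σ : ℂ) * σ z, ← Finset.sum_neg_distrib]
      refine Finset.sum_congr rfl fun σ _ => ?_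
      rw [bar_skew hz]
      ring
    have hconj : (starRingEnd ℂ) T = -T := by
      rw [hT, map_sum, ← Finset.sum_neg_distrib]
      refine Finset.sum_congr rfl fun σ _ => ?_
      rw [map_mul, ← bar_apply, bar_skew hx]
      have e1 : (starRingEnd ℂ) ((Hh σ : ℚ) : ℂ) = ((Hh σ : ℚ) : ℂ) := map_ratCast _ _
      rw [e1]
      ring
    have hc2 := congrArg (starRingEnd ℂ) hc
    rw [map_add, map_mul, map_zero, hconj, map_inv₀] at hc2
    have e2 : (starRingEnd ℂ) (2 : ℂ) = 2 := map_ofNat _ 2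
    have e3 : (starRingEnd ℂ) ((c none : ℚ) : ℂ) = ((c none : ℚ) : ℂ) := map_ratCast _ _
    rw [e2, e3] at hc2
    have hT0 : T = 0 := by linear_combination hc - hc2
    have h1 := hgen (fun σ => Hh σ - Hh (bar σ)) (fun σ => by rw [bar_bar]; ring) (by
      have e4 : ∑ σ, ((Hh σ - Hh (bar σ) : ℚ) : ℂ) * σ x =
          ∑ σ, (Hh σ : ℂ) * σ x - ∑ σ, (Hh (bar σ) : ℂ) * σ x := by
        rw [← Finset.sum_sub_distrib]
        refine Finset.sum_congr rfl fun σ _ => ?_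
        push_cast
        ring
      rw [e4, hbar x hx, ← hT, hT0, sub_neg_eq_add, add_zero])
    have h2 : ∀ σ, Hh (bar σ) = Hh σ := fun σ => by
      have := congrFun h1 σ
      simp only [Pi.zero_apply] at this
      linarith
    have h3 := hbar y hy
    simp only [h2] at h3
    have h4 : ∑ σ, (Hh σ : ℂ) * σ y = 0 := by linear_combination (1 / 2 : ℂ) * h3
    rw [h4, mul_zero])
  exact ⟨f, fun k => hf (some k), hf none⟩

section even

/-- even rank: the derived algebra is contained in every full subalgebra -/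
theorem der_even' {𝔥 : Submodule ℚ (Module.End ℚ A.H1)} (hfull : A.Full 𝔥) (hn : Even m)
    (hA : CM.IsUnit A ω) :
    ∀ X ∈ A.NA, ∀ Y ∈ A.NA, X * Y - Y * X ∈ 𝔥 := by
  classical
  have hcar : Car bar ω := hA.car
  let e := Fintype.equivFin (InfinitePlace E)
  let em : Fin (Fintype.card (InfinitePlace E)) → (E →+* ℂ) := fun κ => (e.symm κ).embedding
  have hem : ∀ κ κ', em κ = em κ' → κ = κ' := by
    intro κ κ' h
    have h1 : InfinitePlace.mk (em κ) = InfinitePlace.mk (em κ') := by rw [h]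
    rw [InfinitePlace.mk_embedding, InfinitePlace.mk_embedding] at h1
    exact e.symm.injective h1
  have hem' : ∀ κ κ', em κ ≠ bar (em κ') := by
    intro κ κ' h
    have h1 : InfinitePlace.mk (em κ) = InfinitePlace.mk (em κ') := by
      rw [h]
      exact InfinitePlace.mk_conjugate_eq _
    rw [InfinitePlace.mk_embedding, InfinitePlace.mk_embedding] at h1
    have h2 := e.symm.injective h1
    subst h2
    exact bar_ne _ h.symm
  have hcase : ∀ σ : E →+* ℂ, (∃ κ, σ = em κ) ∨ ∃ κ, σ = bar (em κ) := by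
    intro σ
    have h1 := InfinitePlace.mk_embedding (InfinitePlace.mk σ)
    rw [InfinitePlace.mk_eq_iff] at h1
    have h2 : em (e (InfinitePlace.mk σ)) = (InfinitePlace.mk σ).embedding := by
      simp only [em]
      rw [Equiv.symm_apply_apply]
    rcases h1 with h1 | h1
    · exact Or.inl ⟨e (InfinitePlace.mk σ), by rw [h2, h1]⟩
    · exact Or.inr ⟨e (InfinitePlace.mk σ), by rw [h2]; exact h1.symm⟩
  have hC : Pool.Agent.R918.Car
      (fun p : Fin (Fintype.card (InfinitePlace E)) × Fin m => ω (em p.1) p.2)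
      (fun p => ω (bar (em p.1)) p.2) := by
    refine ⟨fun p q => ?_, fun p q => ?_, fun p q => ?_⟩
    · exact hcar.anti fun h => hem' _ _ h.1
    · refine hcar.anti fun h => ?_
      have h1 := h.1
      rw [bar_bar] at h1
      exact hem' _ _ h1.symm
    · by_cases hpq : p = q
      · subst hpq
        rw [if_pos rfl, hcar.2]
      · rw [if_neg hpq, hcar.anti, neg_add_cancel]
        rintro ⟨h1, h2⟩
        apply hpq
        have h3 := congrArg bar h1
        rw [bar_bar, bar_bar] at h3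
        exact Prod.ext (hem _ _ h3).symm h2
  have hle : cx A.NA ≤ Pool.Agent.R918.glC
      (fun p : Fin (Fintype.card (InfinitePlace E)) × Fin m => ω (em p.1) p.2)
      (fun p => ω (bar (em p.1)) p.2) := by
    rw [hA.lie]
    unfold gls
    rw [Submodule.span_le]
    rintro _ ⟨σ, i, j, rfl⟩
    rcases hcase σ with ⟨κ, rfl⟩ | ⟨κ, rfl⟩
    · exact Submodule.subset_span ⟨κ, i, j, rfl⟩
    · rw [bar_bar, ← neg_sub]
      exact Submodule.neg_mem _ (Submodule.subset_span ⟨κ, j, i, rfl⟩)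
  refine (Pool.Agent.R918.full_unitary hfull hn hC hle fun κ i j => ?_).1
  have h1 : ω (em κ) i * ω (bar (em κ)) j - ω (bar (em κ)) j * ω (em κ) i ∈
      Algebra.adjoin ℂ (cx A.NA : Set (Module.End ℂ (ℂ ⊗[ℚ] A.H1))) := by
    refine Algebra.subset_adjoin ?_
    change _ ∈ cx A.NA
    rw [hA.lie]
    exact Submodule.subset_span ⟨em κ, i, j, rfl⟩
  have h2 := hcar.pair (em κ) i j
  have h3 : ω (em κ) i * ω (bar (em κ)) j =
      (2⁻¹ : ℂ) • ((ω (em κ) i * ω (bar (em κ)) j - ω (bar (em κ)) j * ω (em κ) i) +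
        if i = j then 1 else 0) := by
    rw [← h2]
    module
  rw [h3]
  refine Subalgebra.smul_mem _ (Subalgebra.add_mem _ h1 ?_) _
  split_ifs
  · exact Subalgebra.one_mem _
  · exact Subalgebra.zero_mem _

end even

variable {s n : ℕ} {r : Fin s → ℕ} {B : Fin n → Ten A r} {w : Fin s → ℤ}
  {P : Matrix (Fin n) (Fin n) ℂ} {H : Set (Matrix (Fin n) (Fin n) ℂ)}
  {Wt : Matrix (Fin n) (Fin n) ℚ}

/-- **The centre** is in the Lie algebra of the group. -/
theorem cen_stab [Nontrivial (Module.End ℂ (ℂ ⊗[ℚ] A.H1))] (h : Mot w B P) (hW : WRel w B Wt)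
    (hH : PtM P H) (hE : SignRich E) (hm0 : m ≠ 0) (hA : CM.IsUnit A ω)
    {Y : Module.End ℚ A.H1} (hY : Y ∈ A.CN) {M : Matrix (Fin n) (Fin n) ℚ} (hM : Rel B Y M)
    (d : ℕ) : Stab H d (cq M) := by
  obtain ⟨n', b, χ, hb⟩ := A.exists_basis
  have hq := qM_full h hW hH
  obtain ⟨X, ⟨hXN, hXq⟩, hXg⟩ := exists_generic (𝔠 := A.CN ⊓ qM B Wt H)
    (inf_le_left.trans A.CN_le_ZA) χ
  have hgen : ∀ T : Module.End ℚ A.H1,
      (∀ Y ∈ A.NA, ∀ Z ∈ A.NA, T * (Y * Z - Z * Y) = (Y * Z - Z * Y) * T) →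
      T * X = X * T → ∀ Z ∈ A.CN, T * Z = Z * T := by
    intro T hT hTX Z hZ
    have h1 : ∀ Q ∈ qM B Wt H, Q * T = T * Q := by
      intro Q hQ
      obtain ⟨Z', hZ', d', hd', hQe, hcomm⟩ := hq.dec hQ
      have hZ'N : Z' ∈ A.CN := ⟨hq.le hZ', fun Y hY =>
        hq.comm Z' (fun X hX => (hcomm X hX).symm) Y hY⟩
      have e1 : T * Z' = Z' * T :=
        A.comm_of_generic hb (X := X) (R := ⟨Z', A.CN_le_ZA hZ'N⟩)
          (fun i j hij => hXg i j hij ⟨Z', A.CN_le_ZA hZ'N⟩ ⟨hZ'N, hZ'⟩) hTX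
      have e2 : T * d' = d' * T := by
        clear hQe
        induction hd' using Submodule.span_induction with
        | mem z hz =>
          obtain ⟨x, hx, y, hy, rfl⟩ := hz
          exact hT x (hq.le hx) y (hq.le hy)
        | zero => rw [mul_zero, zero_mul]
        | add a b _ _ ha hb => rw [mul_add, add_mul, ha, hb]
        | smul c a _ ha => rw [mul_smul_comm, smul_mul_assoc, ha]
      rw [hQe, add_mul, mul_add, e1, e2]
    exact (hq.comm T h1 Z hZ.1).symm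
  obtain ⟨x, hx, hX'⟩ := hA.cen X hXN
  obtain ⟨y, hy, hY'⟩ := hA.cen Y hY
  obtain ⟨f, hf, hf1⟩ := exists_f hA hb (X := X) (Y := ⟨Y, A.CN_le_ZA hY⟩) hx hy hX' hY'
    (fun h hodd hrel => no_rel hE hm0 hA hx hX' hgen h hodd hrel)
  obtain ⟨S, S', row, e1, e2, h3, h4⟩ := exists_dia h.li hb
  obtain ⟨-, MX, hMX, c, hc⟩ := hXq
  have h5 : Stab H d (cq (MX + c • Wt)) := hc d
  have h6 : cq (MX + c • Wt) = S * diagonal (fun j => ∑ k, χ ((row j).2 k) X +
      ((c * ((r (row j).1 : ℚ) - 2 * w (row j).1) : ℚ) : ℂ)) * S' := by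
    rw [cq_add, cq_smul, h3 X MX hMX, h4 w Wt hW, ← Matrix.smul_mul, ← Matrix.mul_smul,
      ← Matrix.add_mul, ← Matrix.mul_add, ← Matrix.diagonal_smul, Matrix.diagonal_add]
    congr 3
    funext j
    rw [Pi.smul_apply, smul_eq_mul]
    push_cast
    ring
  rw [h6] at h5
  have h7 := stab_replica e1 e2 f.toAddMonoidHom h5
  rw [h3 ⟨Y, A.CN_le_ZA hY⟩ M hM]
  have h8 : (fun j => f.toAddMonoidHom (∑ k, χ ((row j).2 k) X +
      ((c * ((r (row j).1 : ℚ) - 2 * w (row j).1) : ℚ) : ℂ))) =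
      fun j => ∑ k, χ ((row j).2 k) ⟨Y, A.CN_le_ZA hY⟩ := by
    funext j
    change f _ = _
    have h9 : ∀ q : ℚ, f (q : ℂ) = 0 := by
      intro q
      have h10 : (q : ℂ) = q • (1 : ℂ) := by rw [Rat.smul_def, mul_one]
      rw [h10, map_smul, hf1, smul_zero]
    rw [map_add, h9, add_zero, map_sum]
    exact Finset.sum_congr rfl fun k _ => hf _
  rw [h8] at h7
  exact h7

/-- The derived algebra. -/
theorem der_LQ (h : Mot w B P) (hW : WRel w B Wt)
    (hder : ∀ X ∈ A.NA, ∀ Y ∈ A.NA, X * Y - Y * X ∈ qM B Wt H)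
    {Z : Module.End ℚ A.H1} (hZ : Z ∈ Pool.Agent.Y102.der A.NA) {M : Matrix (Fin n) (Fin n) ℚ}
    (hM : Rel B Z M) : M ∈ LQ H := by
  have hle : Pool.Agent.Y102.der A.NA ≤ qM B Wt H := by
    unfold Pool.Agent.Y102.der
    rw [Submodule.span_le]
    rintro _ ⟨X, hX, Y, hY, rfl⟩
    exact hder X hX Y hY
  have h1 : ∀ c ∈ Submodule.span ℚ {Z | ∃ X ∈ Pool.Agent.Y102.der A.NA,
      ∃ Y ∈ Pool.Agent.Y102.der A.NA, Z = X * Y - Y * X}, c ∈ A.NA ∧ ∀ M, Rel B c M → M ∈ LQ H := by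
    intro c hc
    induction hc using Submodule.span_induction with
    | mem z hz =>
      obtain ⟨X, hX, Y, hY, rfl⟩ := hz
      exact ⟨A.NA_bracket (hle hX).1 (hle hY).1, fun M hM => qM_br h hW (hle hX) (hle hY) hM⟩
    | zero =>
      refine ⟨A.NA.zero_mem, fun M hM => ?_⟩
      rw [hM.uniq h.li Rel.zero]
      exact (LQ H).zero_mem
    | add a b _ _ ha hb =>
      refine ⟨A.NA.add_mem ha.1 hb.1, fun M hM => ?_⟩
      obtain ⟨M1, h1⟩ := h.st a ha.1
      obtain ⟨M2, h2⟩ := h.st b hb.1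
      rw [hM.uniq h.li (h1.add h2)]
      exact (LQ H).add_mem (ha.2 M1 h1) (hb.2 M2 h2)
    | smul c a _ ha =>
      refine ⟨A.NA.smul_mem c ha.1, fun M hM => ?_⟩
      obtain ⟨M1, h1⟩ := h.st a ha.1
      rw [hM.uniq h.li (h1.smul c)]
      exact (LQ H).smul_mem c (ha.2 M1 h1)
  exact (h1 Z (full_NA.perfect hZ)).2 M hM

section all

/-- **Everything** is in the Lie algebra of the group. -/
theorem NA_stab (h : Mot w B P) (hW : WRel w B Wt) (hH : PtM P H) (hE : SignRich E)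
    (hm : m = 1 ∨ (Even m ∧ m ≠ 0)) (hA : CM.IsUnit A ω) {X : Module.End ℚ A.H1} (hX : X ∈ A.NA)
    {M : Matrix (Fin n) (Fin n) ℚ} (hM : Rel B X M) (d : ℕ) : Stab H d (cq M) := by
  rcases subsingleton_or_nontrivial (Module.End ℂ (ℂ ⊗[ℚ] A.H1)) with hs | hnt
  · have h0 : X ∈ (⊥ : Submodule ℚ (Module.End ℚ A.H1)) := by
      refine mem_of_bc ?_
      rw [Subsingleton.elim (X.baseChange ℂ) 0]
      exact Submodule.zero_mem _
    rw [(Submodule.mem_bot ℚ).1 h0] at hM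
    rw [hM.uniq h.li Rel.zero]
    have h1 : cq (0 : Matrix (Fin n) (Fin n) ℚ) = 0 := by
      ext i j
      exact Rat.cast_zero
    rw [h1]
    exact Stab.zero
  have hm0 : m ≠ 0 := by
    rcases hm with h | h
    · omega
    · exact h.2
  have hq := qM_full h hW hH
  have hder : ∀ X ∈ A.NA, ∀ Y ∈ A.NA, X * Y - Y * X ∈ qM B Wt H := by
    rcases hm with h | h
    · subst h
      intro X hX Y hY
      rw [comm_one hA X hX Y hY]
      exact Submodule.zero_mem _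
    · exact der_even' hq h.1 hA
  obtain ⟨Z, hZ, δ, hδ, hXe, hcomm⟩ := full_NA.dec hX
  have hZN : Z ∈ A.CN := ⟨hZ, fun Y hY => (hcomm Y hY).symm⟩
  obtain ⟨M1, hM1⟩ := h.st Z hZ
  obtain ⟨M2, hM2⟩ := h.st δ (full_NA.der_le hδ)
  rw [hXe] at hM
  rw [hM.uniq h.li (hM1.add hM2), cq_add]
  exact (cen_stab h hW hH hE hm0 hA hZN hM1 d).add (der_LQ h hW hder hδ hM2 d)

/-- **The weights** are in the Lie algebra of the group. -/
theorem wt_stab (h : Mot w B P) (hW : WRel w B Wt) (hH : PtM P H) (hE : SignRich E)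
    (hm : m = 1 ∨ (Even m ∧ m ≠ 0)) (hA : CM.IsUnit A ω) (d : ℕ) : Stab H d (cq Wt) := by
  obtain ⟨D, lam, hne⟩ := exists_der
  have h0 : X0 A.basis tau D lam ∈ A.NA := A.LA_le_NA (by
    rw [AbVar.LA_eq]
    exact X0_mem A.basis AbVar.tau_ne D lam)
  obtain ⟨M0, hM0⟩ := h.st _ h0
  have h1 : Stab H d (cq (M0 + lam (D tau / (2 * tau)) • Wt)) := log_mem h hH D lam hM0 hW d
  have h2 := NA_stab h hW hH hE hm hA h0 hM0 d
  have h3 := h1.add (h2.smul (-1))
  have h4 := h3.smul ((lam (D tau / (2 * tau)) : ℂ)⁻¹)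
  have h5 : ((lam (D tau / (2 * tau)) : ℂ)⁻¹) • (cq (M0 + lam (D tau / (2 * tau)) • Wt) +
      (-1 : ℂ) • cq M0) = cq Wt := by
    rw [cq_add, cq_smul, neg_one_smul, add_comm (cq M0), add_neg_cancel_right, smul_smul,
      inv_mul_cancel₀ (by exact_mod_cast hne), one_smul]
  rwa [h5] at h4

/-- **Main theorem.** -/
theorem main_U (h : Mot w B P) (hW : WRel w B Wt) (hH : PtM P H) (hE : SignRich E)
    (hm : m = 1 ∨ (Even m ∧ m ≠ 0)) (hA : CM.IsUnit A ω) {z : ℂ} (hz : z ≠ 0) :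
    ∃ x ∈ H, HRel w B z x := by
  obtain ⟨N, hN, t, X, M, h1, h2⟩ := exists_J h
  have h3 : ∀ d, Stab H d (cxm N) := by
    intro d
    have h4 : cxm N = ∑ k ∈ t, ((Basis.ofVectorSpace ℚ ℝ k : ℝ) : ℂ) • cq (M k) := by
      rw [h2]
      ext i j
      unfold cxm
      rw [Matrix.map_apply, Matrix.sum_apply, Matrix.sum_apply]
      push_cast
      refine Finset.sum_congr rfl fun k _ => ?_
      rw [Matrix.smul_apply, Matrix.smul_apply, Matrix.map_apply, smul_eq_mul, smul_eq_mul,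
        Complex.ofReal_mul]
      congr 1
    rw [h4]
    refine Finset.sum_induction _ (fun Y => Stab H d Y) (fun a b ha hb => ha.add hb) Stab.zero
      fun k _ => ?_
    exact (NA_stab h hW hH hE hm hA (h1 k).1 (h1 k).2 d).smul _
  refine ⟨NormedSpace.exp (KK Wt N z), exp_mem hH.grp fun d => ?_, hrel_exp hW hN hz⟩
  unfold KK
  exact ((wt_stab h hW hH hE hm hA d).smul _).add ((h3 d).smul _)

end all

/-- The unitary type in terms of matrices. -/
theorem isUnit_of_matrix {w : (E →+* ℂ) → Fin m → Matrix (Fin (2 * g)) (Fin (2 * g)) ℂ}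
    (hcar : Car bar w)
    (hlie : Submodule.span ℂ {Y | ∃ X ∈ A.NA, Y = toC X} = gls w)
    (hcen : ∀ X ∈ A.CN, ∃ x : E, IsCMField.complexConj E x = -x ∧ toC X = rho w x)
    (hall : ∀ x : E, IsCMField.complexConj E x = -x → ∃ X ∈ A.CN, toC X = rho w x) :
    CM.IsUnit A (fun σ i => matE (2 * g) (w σ i)) := by
  have hrho : ∀ x : E, matE (2 * g) (rho w x) = rho (fun σ i => matE (2 * g) (w σ i)) x := by
    intro x
    unfold rho
    rw [map_smul, map_sum]
    congr 1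
    refine Finset.sum_congr rfl fun σ _ => ?_
    rw [map_sum]
    refine Finset.sum_congr rfl fun i _ => ?_
    rw [map_smul, map_mul]
  refine ⟨⟨fun σ i τ j h => ?_, fun σ i => ?_⟩, ?_, fun X hX => ?_, fun x hx => ?_⟩
  · rw [← map_mul, hcar.1 σ i τ j h, map_neg, map_mul]
  · rw [← map_mul, ← map_mul, ← map_add, hcar.2, map_one]
  · rw [← map_lie, hlie]
    unfold gls
    rw [Submodule.map_span]
    congr 1
    ext Y
    constructor
    · rintro ⟨_, ⟨σ, i, j, rfl⟩, rfl⟩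
      refine ⟨σ, i, j, ?_⟩
      change matE (2 * g) _ = _
      rw [map_sub, map_mul, map_mul]
    · rintro ⟨σ, i, j, rfl⟩
      refine ⟨_, ⟨σ, i, j, rfl⟩, ?_⟩
      change matE (2 * g) _ = _
      rw [map_sub, map_mul, map_mul]
  · obtain ⟨x, hx, h⟩ := hcen X hX
    exact ⟨x, hx, by rw [← matE_toC, h, hrho]⟩
  · obtain ⟨X, hX, h⟩ := hall x hx
    exact ⟨X, hX, by rw [← matE_toC, h, hrho]⟩

end Pool.Agent.L0h12.PT
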