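import Pool.Agent.L0h12.PT.Rch

/-!
# The de Rham-Betti classes and the motives of the abelian varieties for which everything is reached
-/

set_option autoImplicit false
set_option linter.unusedSectionVars false
set_option linter.unusedVariables false

open Module Function TensorProduct Matrix NumberField

noncomputable section

namespace Pool.Agent.L0h12.PT

open Pool.Agent.Y102 Pool.Agent.W516.DR Pool.Agent.H204R3.GP
  Pool.Agent.TH119.MX Pool.Agent.R917 Pool.Agent.N208.AM Pool.Agent.L0h12.CM Pool.Agent.R917.DT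

section drb

variable {g : ℕ} {A : AbVar g}

/-- The Lie algebra of the de Rham-Betti classes is closed under replicas. -/
theorem LA_RC : RC A.LA := by
  intro X hX s hs σ Q hQ lam X' hX'
  rw [cmpE_aeval hX']
  intro m φ h2
  have h3 := hX m φ h2
  have hT : Polynomial.aeval (X.baseChange ℂ : Module.End ℂ (ℂ ⊗[ℚ] A.H1))
      (Lagrange.nodal s id) = 0 := by
    apply (LinearMap.toMatrixAlgEquiv (A.bas.baseChange ℂ)).injective
    rw [← Polynomial.aeval_algHom_apply, Pool.Agent.R917.DT.toMatrix_bc, map_zero]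
    rw [rm_eq, aeval_transpose] at hs
    exact Matrix.transpose_eq_zero.1 hs
  refine (kills_bcm_iff A.bas φ _).1 (kills_replica hT σ hQ ?_) lam
  rw [kills_bcm_iff]
  intro mu
  have h4 : Pool.Agent.W516.DR.cmpE mu (X.baseChange ℂ) = mu 1 • X := by
    refine LinearMap.ext fun w => ?_
    rw [Pool.Agent.W516.DR.cmpE_apply, LinearMap.baseChange_tmul, cmp_tmul]
    rfl
  rw [h4]
  exact A.LA.smul_mem (mu 1) hX m φ h2

theorem XF_LA : XF A A.LA :=
  ⟨A.LA_le_NA, fun X hX Y hY => A.LA_bracket hX hY, fun D lam => by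
    rw [AbVar.LA_eq]
    exact X0_mem A.basis AbVar.tau_ne D lam⟩

/-- The endomorphisms which kill the Hodge classes kill all de Rham-Betti classes. -/
theorem NA_le_LA (hR : Rch A) : A.NA ≤ A.LA := det_rch hR XF_LA LA_RC

end drb

section mot

variable {g : ℕ} {A : AbVar g} {s n : ℕ} {r : Fin s → ℕ} {B : Fin n → Ten A r} {w : Fin s → ℤ}
  {P : Matrix (Fin n) (Fin n) ℂ} {H : Set (Matrix (Fin n) (Fin n) ℂ)}
  {Wt : Matrix (Fin n) (Fin n) ℚ}

theorem XF_qM (h : Mot w B P) (hW : WRel w B Wt) (hH : PtM P H) : XF A (qM B Wt H) := by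
  refine ⟨fun X hX => hX.1, fun X hX Y hY => ?_, fun D lam => ?_⟩
  · obtain ⟨N, hN⟩ := h.st _ (A.NA_bracket hX.1 hY.1)
    refine ⟨A.NA_bracket hX.1 hY.1, N, hN, 0, ?_⟩
    rw [zero_smul, add_zero]
    exact qM_br h hW hX hY hN
  · have h0 : X0 A.basis tau D lam ∈ A.NA := A.LA_le_NA (by
      rw [AbVar.LA_eq]
      exact X0_mem A.basis AbVar.tau_ne D lam)
    obtain ⟨N, hN⟩ := h.st _ h0
    exact ⟨h0, N, hN, _, log_mem h hH D lam hN hW⟩

/-- **The centre.** -/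
theorem cen_stab_R (hR : Rch A) (h : Mot w B P) (hW : WRel w B Wt) (hH : PtM P H)
    {Y : Module.End ℚ A.H1} (hY : Y ∈ A.CN) {M : Matrix (Fin n) (Fin n) ℚ} (hM : Rel B Y M)
    (d : ℕ) : Stab H d (cq M) := by
  obtain ⟨n', b, χ, hb⟩ := A.exists_basis
  obtain ⟨X, hXN, hXq, f, hf, hf1⟩ := (hR _ (XF_qM h hW hH)).2 n' b χ hb Y hY
  obtain ⟨S, S', row, e1, e2, h3, h4⟩ := exists_dia h.li hb
  obtain ⟨-, MX, hMX, c, hc⟩ := hXq
  have h5 : Stab H d (cq (MX + c • Wt)) := hc d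
  have h6 : cq (MX + c • Wt) = S * diagonal (fun j => ∑ k, χ ((row j).2 k) ⟨X, A.CN_le_ZA hXN⟩ +
      ((c * ((r (row j).1 : ℚ) - 2 * w (row j).1) : ℚ) : ℂ)) * S' := by
    rw [cq_add, cq_smul, h3 ⟨X, A.CN_le_ZA hXN⟩ MX hMX, h4 w Wt hW, ← Matrix.smul_mul,
      ← Matrix.mul_smul, ← Matrix.add_mul, ← Matrix.mul_add, ← Matrix.diagonal_smul,
      Matrix.diagonal_add]
    congr 3
    funext j
    rw [Pi.smul_apply, smul_eq_mul]
    push_cast
    ring
  rw [h6] at h5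
  have h7 := stab_replica e1 e2 f.toAddMonoidHom h5
  rw [h3 ⟨Y, A.CN_le_ZA hY⟩ M hM]
  have h8 : (fun j => f.toAddMonoidHom (∑ k, χ ((row j).2 k) ⟨X, A.CN_le_ZA hXN⟩ +
      ((c * ((r (row j).1 : ℚ) - 2 * w (row j).1) : ℚ) : ℂ))) =
      fun j => ∑ k, χ ((row j).2 k) ⟨Y, A.CN_le_ZA hY⟩ := by
    funext j
    change f _ = _
    have h9 : ∀ q : ℚ, f (q : ℂ) = 0 := by
      intro q
      have h10 : (q : ℂ) = q • (1 : ℂ) := by rw [Rat.smul_def, mul_one]
      rw [h10, map_smul, hf1, smul_zero]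
    rw [map_add, h9, add_zero, map_sum]
    exact Finset.sum_congr rfl fun k _ => hf _
  rw [h8] at h7
  exact h7

/-- **Everything.** -/
theorem NA_stab_R (hR : Rch A) (h : Mot w B P) (hW : WRel w B Wt) (hH : PtM P H)
    {X : Module.End ℚ A.H1} (hX : X ∈ A.NA)
    {M : Matrix (Fin n) (Fin n) ℚ} (hM : Rel B X M) (d : ℕ) : Stab H d (cq M) := by
  have hder := (hR _ (XF_qM h hW hH)).1
  obtain ⟨Z, hZ, δ, hδ, hXe, hcomm⟩ := Pool.Agent.N208.AM.full_NA.dec hX
  have hZN : Z ∈ A.CN := ⟨hZ, fun Y hY => (hcomm Y hY).symm⟩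
  obtain ⟨M1, hM1⟩ := h.st Z hZ
  obtain ⟨M2, hM2⟩ := h.st δ (Pool.Agent.N208.AM.full_NA.der_le hδ)
  rw [hXe] at hM
  rw [hM.uniq h.li (hM1.add hM2), cq_add]
  exact (cen_stab_R hR h hW hH hZN hM1 d).add (der_LQ h hW hder hδ hM2 d)

/-- **The weights.** -/
theorem wt_stab_R (hR : Rch A) (h : Mot w B P) (hW : WRel w B Wt) (hH : PtM P H) (d : ℕ) :
    Stab H d (cq Wt) := by
  obtain ⟨D, lam, hne⟩ := exists_der
  have h0 : X0 A.basis tau D lam ∈ A.NA := A.LA_le_NA (by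
    rw [AbVar.LA_eq]
    exact X0_mem A.basis AbVar.tau_ne D lam)
  obtain ⟨M0, hM0⟩ := h.st _ h0
  have h1 : Stab H d (cq (M0 + lam (D tau / (2 * tau)) • Wt)) := log_mem h hH D lam hM0 hW d
  have h2 := NA_stab_R hR h hW hH h0 hM0 d
  have h3 := h1.add (h2.smul (-1))
  have h4 := h3.smul ((lam (D tau / (2 * tau)) : ℂ)⁻¹)
  have h5 : ((lam (D tau / (2 * tau)) : ℂ)⁻¹) • (cq (M0 + lam (D tau / (2 * tau)) • Wt) +
      (-1 : ℂ) • cq M0) = cq Wt := by
    rw [cq_add, cq_smul, neg_one_smul, add_comm (cq M0), add_neg_cancel_right, smul_smul,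
      inv_mul_cancel₀ (by exact_mod_cast hne), one_smul]
  rwa [h5] at h4

/-- **Main theorem.** -/
theorem main_R (hR : Rch A) (h : Mot w B P) (hW : WRel w B Wt) (hH : PtM P H) {z : ℂ}
    (hz : z ≠ 0) : ∃ x ∈ H, HRel w B z x := by
  obtain ⟨N, hN, t, X, M, h1, h2⟩ := exists_J h
  have h3 : ∀ d, Stab H d (cxm N) := by
    intro d
    have h4 : cxm N = ∑ k ∈ t, ((Basis.ofVectorSpace ℚ ℝ k : ℝ) : ℂ) • cq (M k) := by
      rw [h2]
      ext i j
      unfold cxm
      rw [Matrix.map_apply, Matrix.sum_apply, Matrix.sum_apply]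
      push_cast
      refine Finset.sum_congr rfl fun k _ => ?_
      rw [Matrix.smul_apply, Matrix.smul_apply, Matrix.map_apply, smul_eq_mul, smul_eq_mul,
        Complex.ofReal_mul]
      congr 1
    rw [h4]
    refine Finset.sum_induction _ (fun Y => Stab H d Y) (fun a b ha hb => ha.add hb) Stab.zero
      fun k _ => ?_
    exact (NA_stab_R hR h hW hH (h1 k).1 (h1 k).2 d).smul _
  refine ⟨NormedSpace.exp (KK Wt N z), exp_mem hH.grp fun d => ?_, hrel_exp hW hN hz⟩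
  unfold KK
  exact ((wt_stab_R hR h hW hH d).smul _).add ((h3 d).smul _)

end mot

end Pool.Agent.L0h12.PT
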