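import Pool.Agent.L0h12.PT.Rcg
import Pool.Agent.L0h12.PT.Rcm

/-!
# The connected centre of the Mumford-Tate group, for arbitrary abelian varieties
-/

set_option autoImplicit false
set_option linter.unusedSectionVars false
set_option linter.unusedVariables false

open Module Function TensorProduct Matrix NumberField

noncomputable section

namespace Pool.Agent.L0h12.PT

open Pool.Agent.Y102 Pool.Agent.W516.DR Pool.Agent.H204R3.GP
  Pool.Agent.TH119.MX Pool.Agent.R917 Pool.Agent.N208.AM Pool.Agent.L0h12.CM Pool.Agent.R917.DT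

/-- The centre is reached from such a subalgebra, by replicas. -/
def CRch {g : ℕ} (A : AbVar g) : Prop := ∀ 𝔥 : Submodule ℚ (Module.End ℚ A.H1), XF A 𝔥 →
  ∀ (n' : ℕ) (b : Basis (Fin n') ℂ (ℂ ⊗[ℚ] A.H1)) (χ : Fin n' → (A.ZA →ₗ[ℚ] ℂ)),
    (∀ k (R : A.ZA), (R : Module.End ℚ A.H1).baseChange ℂ (b k) = χ k R • b k) →
    ∀ (Z : Module.End ℚ A.H1) (hZ : Z ∈ A.CN), ∃ (X : Module.End ℚ A.H1) (hX : X ∈ A.CN),
      X ∈ 𝔥 ∧ ∃ f : ℂ →ₗ[ℚ] ℂ,
        (∀ k, f (χ k ⟨X, A.CN_le_ZA hX⟩) = χ k ⟨Z, A.CN_le_ZA hZ⟩) ∧ f 1 = 0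

variable {g : ℕ} {A : AbVar g}

/-- An additive function which is right on the factors is right everywhere, if the centre acts
faithfully on the factors. -/
theorem faithful_step {ι : Type} [Fintype ι] (F : ι → UF A)
    (hfaith : ∀ W ∈ A.CN, (∀ i, rs (F i).f (F i).p W = 0) → W = 0)
    {n' : ℕ} {b : Basis (Fin n') ℂ (ℂ ⊗[ℚ] A.H1)} {x z : Fin n' → ℂ} {X Z : Module.End ℚ A.H1}
    (hX : X ∈ A.CN) (hZ : Z ∈ A.CN) (hx : ∀ k, X.baseChange ℂ (b k) = x k • b k)
    (hz : ∀ k, Z.baseChange ℂ (b k) = z k • b k) (φ : ℂ →+ ℂ)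
    (hφ : ∀ k i, (F i).p.baseChange ℂ (b k) ≠ 0 → φ (x k) = z k) (k : Fin n') :
    φ (x k) = z k := by
  classical
  let S : Finset ℂ := Finset.univ.image x
  let Q : Polynomial ℂ := Lagrange.interpolate S id fun a => φ a
  have hQ : ∀ a ∈ S, Q.eval a = φ a := fun a ha =>
    Lagrange.eval_interpolate_at_node (v := id) (fun a => φ a) Function.injective_id.injOn ha
  have hP : ∀ (P : Polynomial ℂ) (k : Fin n'),
      Polynomial.aeval (X.baseChange ℂ : Module.End ℂ (ℂ ⊗[ℚ] A.H1)) P (b k) =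
        P.eval (x k) • b k := fun P k =>
    Module.End.aeval_apply_of_hasEigenvector
      ⟨Module.End.mem_eigenspace_iff.2 (hx k), b.ne_zero k⟩
  have hS : Polynomial.aeval (toC X) (∏ a ∈ S, (Polynomial.X - Polynomial.C a)) = 0 := by
    apply (matE (2 * g)).injective
    rw [matE_aeval, map_zero]
    refine b.ext fun k => ?_
    rw [hP, Polynomial.eval_prod, Finset.prod_eq_zero (Finset.mem_image_of_mem x (Finset.mem_univ k)),
      zero_smul, LinearMap.zero_apply]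
    rw [Polynomial.eval_sub, Polynomial.eval_X, Polynomial.eval_C, sub_self]
  have h1 := rc_iff.1 NA_RC X hX.1 S φ Q hS hQ
  have h2 := Submodule.mem_map_of_mem (f := (matE (2 * g)).toLinearMap) h1
  rw [map_lie] at h2
  change matE (2 * g) (Polynomial.aeval (toC X) Q) ∈ cx A.NA at h2
  rw [matE_aeval] at h2
  obtain ⟨T, hT⟩ : ∃ T : Module.End ℂ (ℂ ⊗[ℚ] A.H1),
    T = Polynomial.aeval (X.baseChange ℂ : Module.End ℂ (ℂ ⊗[ℚ] A.H1)) Q := ⟨_, rfl⟩
  rw [← hT] at h2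
  have hTb : ∀ k, T (b k) = φ (x k) • b k := fun k => by
    rw [hT, hP, hQ _ (Finset.mem_image_of_mem x (Finset.mem_univ k))]
  have hc : ∀ lam : ℂ →ₗ[ℚ] ℚ, Pool.Agent.W516.DR.cmpE lam T ∈ A.NA := fun lam =>
    cmp_of_ext A.NA h2 lam
  have hTY : ∀ Y ∈ A.NA, ∀ v, T (Y.baseChange ℂ v) = Y.baseChange ℂ (T v) := by
    intro Y hY v
    have h3 : Commute (X.baseChange ℂ : Module.End ℂ (ℂ ⊗[ℚ] A.H1)) (Y.baseChange ℂ) := by
      change X.baseChange ℂ * Y.baseChange ℂ = Y.baseChange ℂ * X.baseChange ℂ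
      rw [← LinearMap.baseChange_mul, ← LinearMap.baseChange_mul, hX.2 Y hY]
    have h4 : Commute T (Y.baseChange ℂ : Module.End ℂ (ℂ ⊗[ℚ] A.H1)) := by
      rw [hT, Polynomial.aeval_eq_sum_range]
      exact Commute.sum_left _ _ _ fun i _ => (h3.pow_left i).smul_left _
    exact LinearMap.congr_fun h4.eq v
  have hcC : ∀ lam : ℂ →ₗ[ℚ] ℚ, Pool.Agent.W516.DR.cmpE lam T ∈ A.CN := by
    intro lam
    refine ⟨hc lam, fun Y hY => LinearMap.ext fun w => ?_⟩
    change Y (Pool.Agent.W516.DR.cmp lam (T ((1 : ℂ) ⊗ₜ[ℚ] w))) =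
      Pool.Agent.W516.DR.cmp lam (T ((1 : ℂ) ⊗ₜ[ℚ] (Y w)))
    rw [← LinearMap.baseChange_tmul, hTY Y hY, cmp_bc]
  have hpT : ∀ i v, (F i).p.baseChange ℂ (T v) = (F i).p.baseChange ℂ (Z.baseChange ℂ v) := by
    intro i v
    have h3 : (F i).p.baseChange ℂ ∘ₗ T = (F i).p.baseChange ℂ ∘ₗ Z.baseChange ℂ := by
      refine b.ext fun k => ?_
      change (F i).p.baseChange ℂ (T (b k)) = (F i).p.baseChange ℂ (Z.baseChange ℂ (b k))
      rw [hTb, hz, map_smul, map_smul]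
      by_cases h0 : (F i).p.baseChange ℂ (b k) = 0
      · rw [h0, smul_zero, smul_zero]
      · rw [hφ k i h0]
    exact LinearMap.congr_fun h3 v
  have key : ∀ lam : ℂ →ₗ[ℚ] ℚ, Pool.Agent.W516.DR.cmpE lam T = lam 1 • Z := by
    intro lam
    have hW : Pool.Agent.W516.DR.cmpE lam T - lam 1 • Z ∈ A.CN :=
      A.CN.sub_mem (hcC lam) (A.CN.smul_mem _ hZ)
    have h0 := hfaith _ hW (fun i => LinearMap.ext fun w => by
      change (F i).p (Pool.Agent.W516.DR.cmp lam (T ((1 : ℂ) ⊗ₜ[ℚ] ((F i).f w))) -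
        lam 1 • Z ((F i).f w)) = 0
      rw [map_sub, ← cmp_bc, hpT, LinearMap.baseChange_tmul, LinearMap.baseChange_tmul, cmp_tmul,
        map_smul, sub_self])
    exact sub_eq_zero.1 h0
  have hTZ : ∀ v, T v = Z.baseChange ℂ v := by
    intro v
    induction v with
    | zero => rw [map_zero, map_zero]
    | add v v' h1 h2 => rw [map_add, map_add, h1, h2]
    | tmul a w =>
      have h3 : T ((1 : ℂ) ⊗ₜ[ℚ] w) - (1 : ℂ) ⊗ₜ[ℚ] (Z w) = 0 := by
        refine eq_zero_of_cmp (k := ℚ) fun lam => ?_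
        rw [map_sub, cmp_tmul, ← Pool.Agent.W516.DR.cmpE_apply, key]
        exact sub_self _
      have h4 : a ⊗ₜ[ℚ] w = a • ((1 : ℂ) ⊗ₜ[ℚ] w) := by
        rw [TensorProduct.smul_tmul', smul_eq_mul, mul_one]
      rw [h4, map_smul, map_smul, sub_eq_zero.1 h3, LinearMap.baseChange_tmul]
  have h5 := hTb k
  rw [hTZ, hz] at h5
  exact (smul_left_injective ℂ (b.ne_zero k) h5).symm

/-- **The centre of an abelian variety whose centre acts faithfully on independent factors of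
unitary type.** -/
theorem crch_fam {ι : Type} [Fintype ι] (F : ι → UF A) (hind : Splt fun i => (F i).E)
    (hfaith : ∀ W ∈ A.CN, (∀ i, rs (F i).f (F i).p W = 0) → W = 0) : CRch A := by
  classical
  intro 𝔥 hX n' b χ hbχ Z hZ
  have hq := hX.full
  obtain ⟨X, ⟨hXN, hX𝔥⟩, hXg⟩ := exists_generic (𝔠 := A.CN ⊓ 𝔥)
    (inf_le_left.trans A.CN_le_ZA) χ
  choose x hx hxX using fun i => (F i).unit.cen _ (rs_CN (F i).fac hX hXN)
  choose y hy hyZ using fun i => (F i).unit.cen _ (rs_CN (F i).fac hX hZ)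
  have hgen : ∀ i, ∀ T : Module.End ℚ (F i).B.H1,
      (∀ Y ∈ (F i).B.NA, ∀ Z ∈ (F i).B.NA, T * (Y * Z - Z * Y) = (Y * Z - Z * Y) * T) →
      T * rs (F i).f (F i).p X = rs (F i).f (F i).p X * T → ∀ Z ∈ (F i).B.CN, T * Z = Z * T := by
    intro i T hT0 hT W hW
    have h := (F i).fac
    refine ((hX.map h).full.comm T ?_ W hW.1).symm
    rintro _ ⟨Q, hQ, rfl⟩
    obtain ⟨Z1, hZ1, d', hd', hQe, hcomm⟩ := hq.dec hQ
    have hZ1N : Z1 ∈ A.CN := ⟨hq.le hZ1, fun Y hY =>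
      hq.comm Z1 (fun X hX => (hcomm X hX).symm) Y hY⟩
    have hT' : ((F i).f ∘ₗ T ∘ₗ (F i).p : Module.End ℚ A.H1) * X =
        X * ((F i).f ∘ₗ T ∘ₗ (F i).p : Module.End ℚ A.H1) := by
      refine LinearMap.ext fun v => ?_
      change (F i).f (T ((F i).p ((X : Module.End ℚ A.H1) v))) =
        (X : Module.End ℚ A.H1) ((F i).f (T ((F i).p v)))
      have h2 : T (rs (F i).f (F i).p X ((F i).p v)) = rs (F i).f (F i).p X (T ((F i).p v)) :=
        LinearMap.congr_fun hT ((F i).p v)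
      rw [p_comm h hXN.1, h2, rs_apply, h.fix hXN.1]
    have hT1 := A.comm_of_generic hbχ (X := X) (R := ⟨Z1, A.CN_le_ZA hZ1N⟩)
      (fun i j hij => hXg i j hij ⟨Z1, A.CN_le_ZA hZ1N⟩ ⟨hZ1N, hZ1⟩) hT'
    have e1 : T * rs (F i).f (F i).p Z1 = rs (F i).f (F i).p Z1 * T := by
      refine LinearMap.ext fun u => ?_
      change T ((F i).p (Z1 ((F i).f u))) = (F i).p (Z1 ((F i).f (T u)))
      have h2 := LinearMap.congr_fun hT1 ((F i).f u)
      change (F i).f (T ((F i).p (Z1 ((F i).f u)))) = Z1 ((F i).f (T ((F i).p ((F i).f u)))) at h2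
      rw [h.pf] at h2
      rw [← h2, h.pf]
    have e2 : T * rs (F i).f (F i).p d' = rs (F i).f (F i).p d' * T := by
      clear hQe
      induction hd' using Submodule.span_induction with
      | mem z hz =>
        obtain ⟨x, hx, y, hy, rfl⟩ := hz
        rw [map_sub, h.rs_mul (hX.le hy), h.rs_mul (hX.le hx)]
        exact hT0 _ (h.rs_NA (hX.le hx)) _ (h.rs_NA (hX.le hy))
      | zero => rw [map_zero, mul_zero, zero_mul]
      | add a b _ _ ha hb => rw [map_add, mul_add, add_mul, ha, hb]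
      | smul c a _ ha => rw [map_smul, mul_smul_comm, smul_mul_assoc, ha]
    rw [hQe, map_add, add_mul, mul_add, e1, e2]
  let kil : Fin n' → Prop := fun k => ∀ i, (F i).p.baseChange ℂ (b k) = 0
  obtain ⟨φ, hφ, hφ1⟩ := exists_f2 (fun i => Nontrivial (Module.End ℂ (ℂ ⊗[ℚ] (F i).B.H1)))
    (a := fun k => if kil k then 0 else χ k X)
    (c := fun k => if kil k then 0 else χ k ⟨Z, A.CN_le_ZA hZ⟩) hx hy (fun k => by
      by_cases h0 : kil k
      · refine ⟨fun _ _ => 0, fun _ _ _ => rfl, ?_, ?_⟩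
        · rw [if_pos h0]
          simp
        · rw [if_pos h0]
          simp
      · have h0' := h0
        change ¬∀ i, (F i).p.baseChange ℂ (b k) = 0 at h0
        push Not at h0
        obtain ⟨i, hi⟩ := h0
        obtain ⟨m, h1, h2⟩ := exists_mult (F i).unit (x i) (y i) hi
          (a := χ k X) (b := χ k ⟨Z, A.CN_le_ZA hZ⟩) (by
            rw [← hxX, ← p_comm_bc (F i).fac hXN.1, hbχ k X, map_smul]) (by
            rw [← hyZ, ← p_comm_bc (F i).fac hZ.1]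
            have h2 := hbχ k ⟨Z, A.CN_le_ZA hZ⟩
            change Z.baseChange ℂ (b k) = _ at h2
            rw [h2, map_smul])
        have key : ∀ z : ∀ j, (F j).E, ∑ j, ∑ σ, (((Pi.single i m :
            ∀ j, ((F j).E →+* ℂ) → ℕ) j σ : ℕ) : ℂ) * σ (z j) = ∑ σ, (m σ : ℂ) * σ (z i) := by
          intro z
          rw [Finset.sum_eq_single i]
          · rw [Pi.single_eq_same]
          · intro j _ hj
            rw [Pi.single_eq_of_ne hj]
            simp
          · intro hi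
            exact absurd (Finset.mem_univ _) hi
        refine ⟨Pi.single i m, fun j hj σ => ?_, ?_, ?_⟩
        · by_cases hji : j = i
          · subst hji
            exfalso
            apply hj
            refine ⟨⟨1, 0, fun h1 => hi ?_⟩⟩
            exact LinearMap.congr_fun h1 _
          · rw [Pi.single_eq_of_ne hji]
            rfl
        · rw [if_neg h0', key x]
          exact h1
        · rw [if_neg h0', key y]
          exact h2)
    (fun h hodd hP hrel i σ => by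
      by_cases hi : Nontrivial (Module.End ℂ (ℂ ⊗[ℚ] (F i).B.H1))
      · have h1 := split_rel hind h hodd hrel i
        have h2 := no_rel (F i).rich (F i).pos (F i).unit (hx i) (hxX i) (hgen i) (h i)
          (hodd i) h1
        exact congrFun h2 σ
      · exact hP i hi σ)
  refine ⟨X, hXN, hX𝔥, φ, fun k => ?_, hφ1⟩
  exact faithful_step F hfaith hXN hZ (x := fun k => χ k X)
    (z := fun k => χ k ⟨Z, A.CN_le_ZA hZ⟩) (fun k => hbχ k X)
    (fun k => hbχ k ⟨Z, A.CN_le_ZA hZ⟩) φ.toAddMonoidHom (fun k i hi => by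
      have h0 : ¬kil k := fun h => hi (h i)
      have h1 := hφ k
      rw [if_neg h0, if_neg h0] at h1
      exact h1) k

section mot

variable {s n : ℕ} {r : Fin s → ℕ} {B : Fin n → Ten A r} {w : Fin s → ℤ}
  {P : Matrix (Fin n) (Fin n) ℂ} {H : Set (Matrix (Fin n) (Fin n) ℂ)}
  {Wt : Matrix (Fin n) (Fin n) ℚ}

/-- **The centre.** -/
theorem cen_stab_C (hR : CRch A) (h : Mot w B P) (hW : WRel w B Wt) (hH : PtM P H)
    {Y : Module.End ℚ A.H1} (hY : Y ∈ A.CN) {M : Matrix (Fin n) (Fin n) ℚ} (hM : Rel B Y M)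
    (d : ℕ) : Stab H d (cq M) := by
  obtain ⟨n', b, χ, hb⟩ := A.exists_basis
  obtain ⟨X, hXN, hXq, f, hf, hf1⟩ := hR _ (XF_qM h hW hH) n' b χ hb Y hY
  obtain ⟨S, S', row, e1, e2, h3, h4⟩ := exists_dia h.li hb
  obtain ⟨-, MX, hMX, c, hc⟩ := hXq
  have h5 : Stab H d (cq (MX + c • Wt)) := hc d
  have h6 : cq (MX + c • Wt) = S * diagonal (fun j => ∑ k, χ ((row j).2 k) ⟨X, A.CN_le_ZA hXN⟩ +
      ((c * ((r (row j).1 : ℚ) - 2 * w (row j).1) : ℚ) : ℂ)) * S' := by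
    rw [cq_add, cq_smul, h3 ⟨X, A.CN_le_ZA hXN⟩ MX hMX, h4 w Wt hW, ← Matrix.smul_mul,
      ← Matrix.mul_smul, ← Matrix.add_mul, ← Matrix.mul_add, ← Matrix.diagonal_smul,
      Matrix.diagonal_add]
    congr 3
    funext j
    rw [Pi.smul_apply, smul_eq_mul]
    push_cast
    ring
  rw [h6] at h5
  have h7 := stab_replica e1 e2 f.toAddMonoidHom h5
  rw [h3 ⟨Y, A.CN_le_ZA hY⟩ M hM]
  have h8 : (fun j => f.toAddMonoidHom (∑ k, χ ((row j).2 k) ⟨X, A.CN_le_ZA hXN⟩ +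
      ((c * ((r (row j).1 : ℚ) - 2 * w (row j).1) : ℚ) : ℂ))) =
      fun j => ∑ k, χ ((row j).2 k) ⟨Y, A.CN_le_ZA hY⟩ := by
    funext j
    change f _ = _
    have h9 : ∀ q : ℚ, f (q : ℂ) = 0 := by
      intro q
      have h10 : (q : ℂ) = q • (1 : ℂ) := by rw [Rat.smul_def, mul_one]
      rw [h10, map_smul, hf1, smul_zero]
    rw [map_add, h9, add_zero, map_sum]
    exact Finset.sum_congr rfl fun k _ => hf _
  rw [h8] at h7
  exact h7

/-- The brackets of the Lie algebra of the group. -/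
theorem qder_LQ (h : Mot w B P) (hW : WRel w B Wt)
    {Z : Module.End ℚ A.H1} (hZ : Z ∈ Pool.Agent.Y102.der (qM B Wt H))
    {M : Matrix (Fin n) (Fin n) ℚ} (hM : Rel B Z M) : M ∈ LQ H := by
  have h1 : ∀ c ∈ Submodule.span ℚ {Z | ∃ X ∈ qM B Wt H,
      ∃ Y ∈ qM B Wt H, Z = X * Y - Y * X}, c ∈ A.NA ∧ ∀ M, Rel B c M → M ∈ LQ H := by
    intro c hc
    induction hc using Submodule.span_induction with
    | mem z hz =>
      obtain ⟨X, hX, Y, hY, rfl⟩ := hz
      exact ⟨A.NA_bracket hX.1 hY.1, fun M hM => qM_br h hW hX hY hM⟩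
    | zero =>
      refine ⟨A.NA.zero_mem, fun M hM => ?_⟩
      rw [hM.uniq h.li Rel.zero]
      exact (LQ H).zero_mem
    | add a b _ _ ha hb =>
      refine ⟨A.NA.add_mem ha.1 hb.1, fun M hM => ?_⟩
      obtain ⟨M1, h1⟩ := h.st a ha.1
      obtain ⟨M2, h2⟩ := h.st b hb.1
      rw [hM.uniq h.li (h1.add h2)]
      exact (LQ H).add_mem (ha.2 M1 h1) (hb.2 M2 h2)
    | smul c a _ ha =>
      refine ⟨A.NA.smul_mem c ha.1, fun M hM => ?_⟩
      obtain ⟨M1, h1⟩ := h.st a ha.1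
      rw [hM.uniq h.li (h1.smul c)]
      exact (LQ H).smul_mem c (ha.2 M1 h1)
  exact (h1 Z hZ).2 M hM

/-- **The weights.** -/
theorem wt_stab_C (hR : CRch A) (h : Mot w B P) (hW : WRel w B Wt) (hH : PtM P H) (d : ℕ) :
    Stab H d (cq Wt) := by
  obtain ⟨D, lam, hne⟩ := exists_der
  have hXF := XF_qM h hW hH
  have hq := hXF.full
  have h0 : X0 A.basis tau D lam ∈ A.NA := A.LA_le_NA (by
    rw [AbVar.LA_eq]
    exact X0_mem A.basis AbVar.tau_ne D lam)
  obtain ⟨Z, hZ, δ, hδ, hXe, hcomm⟩ := hq.dec (hXF.x0 D lam)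
  have hZN : Z ∈ A.CN := ⟨hq.le hZ, fun Y hY =>
    hq.comm Z (fun X hX => (hcomm X hX).symm) Y hY⟩
  have hδN : δ ∈ A.NA := by
    have h1 : δ = X0 A.basis tau D lam - Z := by rw [hXe, add_sub_cancel_left]
    rw [h1]
    exact A.NA.sub_mem h0 hZN.1
  obtain ⟨M0, hM0⟩ := h.st _ h0
  obtain ⟨M1, hM1⟩ := h.st Z hZN.1
  obtain ⟨M2, hM2⟩ := h.st δ hδN
  have h1 : Stab H d (cq (M0 + lam (D tau / (2 * tau)) • Wt)) := log_mem h hH D lam hM0 hW d
  have h2 : Stab H d (cq M0) := by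
    have h3 : M0 = M1 + M2 := hM0.uniq h.li (by rw [hXe]; exact hM1.add hM2)
    rw [h3, cq_add]
    exact (cen_stab_C hR h hW hH hZN hM1 d).add (qder_LQ h hW hδ hM2 d)
  have h3 := h1.add (h2.smul (-1))
  have h4 := h3.smul ((lam (D tau / (2 * tau)) : ℂ)⁻¹)
  have h5 : ((lam (D tau / (2 * tau)) : ℂ)⁻¹) • (cq (M0 + lam (D tau / (2 * tau)) • Wt) +
      (-1 : ℂ) • cq M0) = cq Wt := by
    rw [cq_add, cq_smul, neg_one_smul, add_comm (cq M0), add_neg_cancel_right, smul_smul,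
      inv_mul_cancel₀ (by exact_mod_cast hne), one_smul]
  rwa [h5] at h4

/-- **The exponentials of the centre and of the weights.** -/
theorem main_C (hR : CRch A) (h : Mot w B P) (hW : WRel w B Wt) (hH : PtM P H)
    {Y : Module.End ℚ A.H1} (hY : Y ∈ A.CN) {M : Matrix (Fin n) (Fin n) ℚ} (hM : Rel B Y M)
    (t u : ℂ) : NormedSpace.exp (t • cq M + u • cq Wt) ∈ H :=
  exp_mem hH.grp fun d => ((cen_stab_C hR h hW hH hY hM d).smul t).add
    ((wt_stab_C hR h hW hH d).smul u)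

end mot

end Pool.Agent.L0h12.PT
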