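import Pool.Agent.L0h12.PT.Rcc

/-!
# Rigid abelian varieties whose centre acts faithfully on factors of unitary type
-/

set_option autoImplicit false
set_option linter.unusedSectionVars false
set_option linter.unusedVariables false

open Module Function TensorProduct Matrix NumberField

noncomputable section

namespace Pool.Agent.L0h12.PT

open Pool.Agent.Y102 Pool.Agent.W516.DR Pool.Agent.H204R3.GP
  Pool.Agent.TH119.MX Pool.Agent.R917 Pool.Agent.N208.AM Pool.Agent.L0h12.CM Pool.Agent.R917.DT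

variable {g : ℕ} {A : AbVar g}

theorem CRch.rch (hC : CRch A) (hder : DRigid A) : Rch A := fun 𝔥 hX => ⟨hder 𝔥 hX.full, hC 𝔥 hX⟩

/-- If the centre acts by zero on a complement of the factors, then it acts faithfully on them. -/
theorem faithful_of_from {ι : Type} {g' : ι → ℕ} {B : ∀ i, AbVar (g' i)}
    (f : ∀ i, (B i).H1 →ₗ[ℚ] A.H1) (p : ∀ i, A.H1 →ₗ[ℚ] (B i).H1)
    (h : ∀ i, Fac (B i) A (f i) (p i))
    (hcen : ∀ W ∈ A.CN, ∀ v, (∀ i, p i v = 0) → W v = 0) :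
    ∀ W ∈ A.CN, (∀ i v, p i (W (f i v)) = 0) → W = 0 := by
  intro W hW h0
  have hp : ∀ i v, p i (W v) = 0 := fun i v => by
    rw [p_comm (h i) hW.1]
    exact h0 i _
  have h2 : W ∘ₗ W = 0 := LinearMap.ext fun v => hcen W hW (W v) fun i => hp i v
  obtain ⟨n', b, χ, hb⟩ := A.exists_basis
  have h3 : W.baseChange ℂ = 0 := by
    refine b.ext fun k => ?_
    have h3 : W.baseChange ℂ (b k) = χ k ⟨W, A.CN_le_ZA hW⟩ • b k := hb k ⟨W, A.CN_le_ZA hW⟩
    have h4 : W.baseChange ℂ (W.baseChange ℂ (b k)) = 0 := by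
      rw [← LinearMap.comp_apply, ← LinearMap.baseChange_comp, h2, LinearMap.baseChange_zero]
      rfl
    rw [h3, map_smul, h3, smul_smul] at h4
    have h5 := (smul_eq_zero.1 h4).resolve_right (b.ne_zero k)
    rw [h3, mul_self_eq_zero.1 h5, zero_smul]
    rfl
  have h4 : W ∈ (⊥ : Submodule ℚ (Module.End ℚ A.H1)) := by
    refine mem_of_bc ?_
    rw [h3]
    exact Submodule.zero_mem _
  exact (Submodule.mem_bot ℚ).1 h4

/-- Products of an abelian variety of CM type with a rigid one are rigid. -/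
theorem dRigid_cm {g₁ g₂ : ℕ} {B : AbVar g₁} {C : AbVar g₂} {f : B.H1 →ₗ[ℚ] A.H1}
    {p : A.H1 →ₗ[ℚ] B.H1} {f' : C.H1 →ₗ[ℚ] A.H1} {p' : A.H1 →ₗ[ℚ] C.H1} (h : Fac B A f p)
    (h' : Fac C A f' p') (hs : ∀ w, f (p w) + f' (p' w) = w)
    (hcB : ∀ X ∈ B.NA, ∀ Y ∈ B.NA, X * Y = Y * X) (hC : DRigid C) : DRigid A := by
  intro 𝔥 hq X hXN Y hYN
  have hder : Pool.Agent.Y102.der C.NA ≤ 𝔥.map (rs f' p') := by
    unfold Pool.Agent.Y102.der
    rw [Submodule.span_le]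
    rintro _ ⟨X, hX, Y, hY, rfl⟩
    exact hC _ (full_map h' hq) X hX Y hY
  have hB0 : ∀ X ∈ A.NA, ∀ Y ∈ A.NA, rs f p (X * Y - Y * X) = 0 := fun X hX Y hY => by
    rw [map_sub, h.rs_mul hY, h.rs_mul hX, hcB _ (h.rs_NA hX) _ (h.rs_NA hY), sub_self]
  have h1 : ∀ c ∈ Submodule.span ℚ {Z | ∃ X ∈ Pool.Agent.Y102.der C.NA,
      ∃ Y ∈ Pool.Agent.Y102.der C.NA, Z = X * Y - Y * X},
      ∃ W ∈ 𝔥, rs f' p' W = c ∧ rs f p W = 0 := by
    intro c hc
    induction hc using Submodule.span_induction with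
    | mem z hz =>
      obtain ⟨X, hX, Y, hY, rfl⟩ := hz
      obtain ⟨P, hP, rfl⟩ := hder hX
      obtain ⟨Q, hQ, rfl⟩ := hder hY
      exact ⟨P * Q - Q * P, hq.br P hP Q hQ, by
        rw [map_sub, h'.rs_mul (hq.le hQ), h'.rs_mul (hq.le hP)], hB0 _ (hq.le hP) _ (hq.le hQ)⟩
    | zero => exact ⟨0, 𝔥.zero_mem, map_zero _, map_zero _⟩
    | add a b _ _ ha hb =>
      obtain ⟨P, hP, h1, h2⟩ := ha
      obtain ⟨Q, hQ, h3, h4⟩ := hb
      exact ⟨P + Q, 𝔥.add_mem hP hQ, by rw [map_add, h1, h3], by rw [map_add, h2, h4, add_zero]⟩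
    | smul c a _ ha =>
      obtain ⟨P, hP, h1, h2⟩ := ha
      exact ⟨c • P, 𝔥.smul_mem c hP, by rw [map_smul, h1], by rw [map_smul, h2, smul_zero]⟩
  have h2 : rs f' p' (X * Y - Y * X) ∈ Pool.Agent.Y102.der C.NA := by
    rw [map_sub, h'.rs_mul hYN, h'.rs_mul hXN]
    exact Submodule.subset_span ⟨_, h'.rs_NA hXN, _, h'.rs_NA hYN, rfl⟩
  obtain ⟨W, hW, h3, h4⟩ := h1 _ (full_NA.perfect h2)
  have e : X * Y - Y * X = W := ext_parts h h' hs (A.NA_bracket hXN hYN) (hq.le hW)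
    (by rw [h4, hB0 X hXN Y hYN]) h3.symm
  rw [e]
  exact hW

end Pool.Agent.L0h12.PT
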