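import Pool.Agent.L0h12.PT.Rch

/-!
# Abelian varieties whose centre comes from a factor of unitary type
-/

set_option autoImplicit false
set_option linter.unusedSectionVars false
set_option linter.unusedVariables false

open Module Function TensorProduct Matrix NumberField

noncomputable section

namespace Pool.Agent.L0h12.PT

open Pool.Agent.Y102 Pool.Agent.W516.DR Pool.Agent.H204R3.GP
  Pool.Agent.TH119.MX Pool.Agent.R917 Pool.Agent.N208.AM Pool.Agent.L0h12.CM Pool.Agent.R917.DT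

variable {g g₁ g₂ : ℕ} {A : AbVar g} {B : AbVar g₁} {C : AbVar g₂}
  {f : B.H1 →ₗ[ℚ] A.H1} {p : A.H1 →ₗ[ℚ] B.H1} {f' : C.H1 →ₗ[ℚ] A.H1} {p' : A.H1 →ₗ[ℚ] C.H1}

/-- Every full subalgebra contains the derived algebra. -/
def DRigid {g : ℕ} (A : AbVar g) : Prop := ∀ 𝔥 : Submodule ℚ (Module.End ℚ A.H1), A.Full 𝔥 →
  ∀ X ∈ A.NA, ∀ Y ∈ A.NA, X * Y - Y * X ∈ 𝔥

theorem rs_CN (h : Fac B A f p) {𝔥 : Submodule ℚ (Module.End ℚ A.H1)} (hX : XF A 𝔥)
    {W : Module.End ℚ A.H1} (hW : W ∈ A.CN) : rs f p W ∈ B.CN := by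
  refine ⟨h.rs_NA hW.1, fun Y hY => ?_⟩
  refine (hX.map h).full.comm _ ?_ Y hY
  rintro _ ⟨Q, hQ, rfl⟩
  rw [← h.rs_mul hW.1, ← h.rs_mul (hX.le hQ), hW.2 Q (hX.le hQ)]

theorem fac_bc (h : Fac B A f p) {W : Module.End ℚ A.H1} (hW : W ∈ A.NA)
    (h0 : ∀ v, p v = 0 → W v = 0) (z : ℂ ⊗[ℚ] A.H1) :
    W.baseChange ℂ z = f.baseChange ℂ ((rs f p W).baseChange ℂ (p.baseChange ℂ z)) := by
  induction z with
  | zero => rw [map_zero, map_zero, map_zero, map_zero]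
  | add z z' h1 h2 => rw [map_add, map_add, map_add, map_add, h1, h2]
  | tmul a w =>
    rw [LinearMap.baseChange_tmul, LinearMap.baseChange_tmul, LinearMap.baseChange_tmul,
      LinearMap.baseChange_tmul]
    congr 1
    have e : W (w - f (p w)) = 0 := h0 _ (by rw [map_sub, h.pf, sub_self])
    rw [map_sub, sub_eq_zero] at e
    rw [rs_apply, h.fix hW, e]

variable {E : Type} [Field E] [NumberField E] [IsCMField E] {m : ℕ}
  {ω : (E →+* ℂ) → Fin m → Module.End ℂ (ℂ ⊗[ℚ] B.H1)}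

/-- **The centre comes from a factor of unitary type.** -/
theorem rch_fac (h : Fac B A f p) (hE : SignRich E) (hm0 : m ≠ 0) (hB : CM.IsUnit B ω)
    (hder : DRigid A) (hcen : ∀ W ∈ A.CN, ∀ v, p v = 0 → W v = 0) : Rch A := by
  intro 𝔥 hX
  have hq := hX.full
  have hb := hX.map h
  refine ⟨hder 𝔥 hq, fun n' b χ hbχ Z hZ => ?_⟩
  have hchi : ∀ (W : Module.End ℚ A.H1) (hW : W ∈ A.CN) (k : Fin n'),
      p.baseChange ℂ (b k) = 0 → χ k ⟨W, A.CN_le_ZA hW⟩ = 0 := by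
    intro W hW k hk
    have h1 := fac_bc h hW.1 (hcen W hW) (b k)
    rw [hk, map_zero, map_zero] at h1
    have h2 := hbχ k ⟨W, A.CN_le_ZA hW⟩
    change W.baseChange ℂ (b k) = _ at h2
    rw [h1] at h2
    exact (smul_eq_zero.1 h2.symm).resolve_right (b.ne_zero k)
  rcases subsingleton_or_nontrivial (Module.End ℂ (ℂ ⊗[ℚ] B.H1)) with hs1 | hnt
  · refine ⟨0, A.CN.zero_mem, 𝔥.zero_mem, 0, fun k => ?_, rfl⟩
    rw [hchi Z hZ k, LinearMap.zero_apply]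
    have h1 : (1 : Module.End ℂ (ℂ ⊗[ℚ] B.H1)) = 0 := Subsingleton.elim _ _
    exact LinearMap.congr_fun h1 (p.baseChange ℂ (b k))
  obtain ⟨n₁, b₁, χ₁, hb₁⟩ := B.exists_basis
  have hcCN : (A.CN ⊓ 𝔥).map (rs f p) ≤ B.CN := by
    rintro _ ⟨W, hW, rfl⟩
    exact rs_CN h hX hW.1
  obtain ⟨R, ⟨Z', ⟨hZ'N, hZ'⟩, hR⟩, hRg⟩ := exists_generic (𝔠 := (A.CN ⊓ 𝔥).map (rs f p))
    (hcCN.trans B.CN_le_ZA) χ₁
  have hRN : (R : Module.End ℚ B.H1) ∈ B.CN := hcCN ⟨Z', ⟨hZ'N, hZ'⟩, hR⟩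
  have hgen : ∀ T : Module.End ℚ B.H1,
      (∀ Y ∈ B.NA, ∀ Z ∈ B.NA, T * (Y * Z - Z * Y) = (Y * Z - Z * Y) * T) →
      T * R = R * T → ∀ Z ∈ B.CN, T * Z = Z * T := by
    intro T hT0 hT Z hZ
    refine (hb.full.comm T ?_ Z hZ.1).symm
    rintro _ ⟨Q, hQ, rfl⟩
    obtain ⟨Z1, hZ1, d', hd', hQe, hcomm⟩ := hq.dec hQ
    have hZ1N : Z1 ∈ A.CN := ⟨hq.le hZ1, fun Y hY =>
      hq.comm Z1 (fun X hX => (hcomm X hX).symm) Y hY⟩
    have hP : rs f p Z1 ∈ (A.CN ⊓ 𝔥).map (rs f p) := ⟨Z1, ⟨hZ1N, hZ1⟩, rfl⟩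
    have e1 : T * rs f p Z1 = rs f p Z1 * T :=
      B.comm_of_generic hb₁ (X := R) (R := ⟨rs f p Z1, B.CN_le_ZA (hcCN hP)⟩)
        (fun i j hij => hRg i j hij ⟨rs f p Z1, B.CN_le_ZA (hcCN hP)⟩ hP) hT
    have e2 : T * rs f p d' = rs f p d' * T := by
      clear hQe
      induction hd' using Submodule.span_induction with
      | mem z hz =>
        obtain ⟨x, hx, y, hy, rfl⟩ := hz
        rw [map_sub, h.rs_mul (hX.le hy), h.rs_mul (hX.le hx)]
        exact hT0 _ (h.rs_NA (hX.le hx)) _ (h.rs_NA (hX.le hy))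
      | zero => rw [map_zero, mul_zero, zero_mul]
      | add a b _ _ ha hb => rw [map_add, mul_add, add_mul, ha, hb]
      | smul c a _ ha => rw [map_smul, mul_smul_comm, smul_mul_assoc, ha]
    rw [hQe, map_add, add_mul, mul_add, e1, e2]
  obtain ⟨x, hx, hX'⟩ := hB.cen R hRN
  obtain ⟨y, hy, hY'⟩ := hB.cen _ (rs_CN h hX hZ)
  obtain ⟨φ, hφ, hφ1⟩ := exists_f' (a := fun k => χ k ⟨Z', A.CN_le_ZA hZ'N⟩)
    (c := fun k => χ k ⟨Z, A.CN_le_ZA hZ⟩) hx hy (fun k => by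
      by_cases h0 : p.baseChange ℂ (b k) = 0
      · refine ⟨fun _ => 0, ?_, ?_⟩
        · rw [hchi Z' hZ'N k h0]
          simp
        · rw [hchi Z hZ k h0]
          simp
      · refine exists_mult hB x y h0 ?_ ?_
        · rw [← hX', ← hR, ← p_comm_bc h hZ'N.1]
          have h2 := hbχ k ⟨Z', A.CN_le_ZA hZ'N⟩
          change Z'.baseChange ℂ (b k) = _ at h2
          rw [h2, map_smul]
        · rw [← hY', ← p_comm_bc h hZ.1]
          have h2 := hbχ k ⟨Z, A.CN_le_ZA hZ⟩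
          change Z.baseChange ℂ (b k) = _ at h2
          rw [h2, map_smul])
    (fun h1 hodd hrel => no_rel hE hm0 hB hx hX' hgen h1 hodd hrel)
  exact ⟨Z', hZ'N, hZ', φ, hφ, hφ1⟩

/-- Restriction to a factor preserves full subalgebras. -/
theorem full_map (h : Fac B A f p) {𝔥 : Submodule ℚ (Module.End ℚ A.H1)} (hq : A.Full 𝔥) :
    B.Full (𝔥.map (rs f p)) where
  le := by
    rintro _ ⟨Y, hY, rfl⟩
    exact h.rs_NA (hq.le hY)
  br := by
    rintro _ ⟨Y, hY, rfl⟩ _ ⟨Z, hZ, rfl⟩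
    refine ⟨Y * Z - Z * Y, hq.br Y hY Z hZ, ?_⟩
    rw [map_sub, h.rs_mul (hq.le hZ), h.rs_mul (hq.le hY)]
  semi := by
    intro U hU
    obtain ⟨U', h1, h2⟩ := hq.semi (U.map f) (by
      rintro X hX _ ⟨u, hu, rfl⟩
      refine ⟨rs f p X u, hU _ ⟨X, hX, rfl⟩ u hu, ?_⟩
      rw [rs_apply, h.fix (hq.le hX)])
    refine ⟨U'.comap f, ?_, ?_⟩
    · rintro _ ⟨X, hX, rfl⟩ u hu
      change f (rs f p X u) ∈ U'
      rw [rs_apply, h.fix (hq.le hX)]
      exact h1 X hX _ hu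
    · refine ⟨?_, ?_⟩
      · rw [Submodule.disjoint_def]
        intro u hu hu'
        have h3 := Submodule.disjoint_def.1 h2.disjoint (f u) ⟨u, hu, rfl⟩ hu'
        have h4 := congrArg p h3
        rwa [h.pf, map_zero] at h4
      · rw [codisjoint_iff, Submodule.eq_top_iff']
        intro b
        obtain ⟨_, ⟨u, hu, rfl⟩, u', hu', h3⟩ := Submodule.mem_sup.1
          ((codisjoint_iff.1 h2.codisjoint).symm ▸ Submodule.mem_top : f b ∈ U.map f ⊔ U')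
        refine Submodule.mem_sup.2 ⟨u, hu, b - u, ?_, by rw [add_sub_cancel]⟩
        change f (b - u) ∈ U'
        rw [map_sub, ← h3, add_sub_cancel_left]
        exact hu'
  comm := by
    intro T hT X hX
    have h1 : ∀ Q ∈ 𝔥, Q * (f ∘ₗ T ∘ₗ p : Module.End ℚ A.H1) =
        (f ∘ₗ T ∘ₗ p : Module.End ℚ A.H1) * Q := by
      intro Q hQ
      refine LinearMap.ext fun v => ?_
      change Q (f (T (p v))) = f (T (p (Q v)))
      have h2 : rs f p Q (T (p v)) = T (rs f p Q (p v)) :=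
        LinearMap.congr_fun (hT _ ⟨Q, hQ, rfl⟩) (p v)
      rw [p_comm h (hq.le hQ), ← h2, rs_apply, h.fix (hq.le hQ)]
    have h2 : (f ∘ₗ T ∘ₗ p : Module.End ℚ A.H1) ∈ A.EA := fun Q hQ =>
      hq.comm _ h1 Q (A.LA_le_NA hQ)
    rw [AbVar.mem_EA] at h2
    obtain ⟨e, he⟩ := h2
    obtain ⟨e₁, he₁⟩ := h.hp.algebraic
    obtain ⟨e₂, he₂⟩ := h.hf.algebraic
    refine B.NA_comm hX ?_
    rw [AbVar.mem_EA]
    refine ⟨fun i l => ∑ j, ∑ k, e₁ i j * e j k * e₂ k l, fun i w => ?_⟩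
    have h3 : T w = p ((f ∘ₗ T ∘ₗ p : Module.End ℚ A.H1) (f w)) := by
      change T w = p (f (T (p (f w))))
      rw [h.pf, h.pf]
    rw [h3, he₁]
    simp only [he, he₂, map_sum, map_mul, Finset.mul_sum, Finset.sum_mul]
    rw [Finset.sum_congr rfl fun j _ => Finset.sum_comm, Finset.sum_comm]
    exact Finset.sum_congr rfl fun l _ => Finset.sum_congr rfl fun j _ =>
      Finset.sum_congr rfl fun k _ => by ring

/-- Products of an abelian variety of unitary type of rank one with a rigid one. -/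
theorem dRigid_prod {ω' : (E →+* ℂ) → Fin 1 → Module.End ℂ (ℂ ⊗[ℚ] B.H1)} (h : Fac B A f p)
    (h' : Fac C A f' p') (hs : ∀ w, f (p w) + f' (p' w) = w) (hB : CM.IsUnit B ω')
    (hC : Rigid C) : DRigid A := by
  intro 𝔥 hq X hXN Y hYN
  have hcall : C.NA ≤ 𝔥.map (rs f' p') := hC.all _ (full_map h' hq)
  have hcB : ∀ X ∈ B.NA, ∀ Y ∈ B.NA, X * Y = Y * X := fun X hX Y hY =>
    sub_eq_zero.1 (comm_one hB X hX Y hY)
  obtain ⟨X', hX', eX⟩ := hcall (h'.rs_NA hXN)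
  obtain ⟨Y', hY', eY⟩ := hcall (h'.rs_NA hYN)
  have e : X * Y - Y * X = X' * Y' - Y' * X' := by
    refine ext_parts h h' hs (A.NA_bracket hXN hYN)
      (A.NA_bracket (hq.le hX') (hq.le hY')) ?_ ?_
    · rw [map_sub, map_sub, h.rs_mul hYN, h.rs_mul hXN, h.rs_mul (hq.le hY'),
        h.rs_mul (hq.le hX'), hcB _ (h.rs_NA hXN) _ (h.rs_NA hYN), sub_self,
        hcB _ (h.rs_NA (hq.le hX')) _ (h.rs_NA (hq.le hY')), sub_self]
    · rw [map_sub, map_sub, h'.rs_mul hYN, h'.rs_mul hXN, h'.rs_mul (hq.le hY'),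
        h'.rs_mul (hq.le hX'), eX, eY]
  rw [e]
  exact hq.br X' hX' Y' hY'

/-- The centre of a product with a rigid factor. -/
theorem cen_prod (h : Fac B A f p) (h' : Fac C A f' p') (hs : ∀ w, f (p w) + f' (p' w) = w)
    (hC : Rigid C) : ∀ W ∈ A.CN, ∀ v, p v = 0 → W v = 0 := by
  intro W hW v hv
  have hcall : C.NA ≤ A.NA.map (rs f' p') := hC.all _ (full_map h' Pool.Agent.N208.AM.full_NA)
  have h0 : rs f' p' W = 0 := by
    refine hC.cen _ ⟨h'.rs_NA hW.1, fun Y hY => ?_⟩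
    obtain ⟨Y', hY', rfl⟩ := hcall hY
    rw [← h'.rs_mul hW.1, ← h'.rs_mul hY', hW.2 Y' hY']
  have h1 : v = f' (p' v) := by
    have h2 := hs v
    rw [hv, map_zero, zero_add] at h2
    exact h2.symm
  rw [h1, ← h'.fix hW.1, ← rs_apply f' p', h0, LinearMap.zero_apply, map_zero]

end Pool.Agent.L0h12.PT
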