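import Pool.Agent.L0h12.PT.Rcf

/-!
# Abelian varieties whose centre comes from several independent factors of unitary type
-/

set_option autoImplicit false
set_option linter.unusedSectionVars false
set_option linter.unusedVariables false

open Module Function TensorProduct Matrix NumberField

noncomputable section

namespace Pool.Agent.L0h12.PT

open Pool.Agent.Y102 Pool.Agent.W516.DR Pool.Agent.H204R3.GP
  Pool.Agent.TH119.MX Pool.Agent.R917 Pool.Agent.N208.AM Pool.Agent.L0h12.CM Pool.Agent.R917.DT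

/-! ### Several fields -/

section fields

variable {ι : Type} [Fintype ι] {E : ι → Type} [∀ i, Field (E i)] [∀ i, NumberField (E i)]
  [∀ i, IsCMField (E i)]

/-- The additive function, for several fields. -/
theorem exists_f2 (P : ι → Prop) {n' : ℕ} {a c : Fin n' → ℂ} {x y : ∀ i, E i}
    (hx : ∀ i, IsCMField.complexConj (E i) (x i) = -x i)
    (hy : ∀ i, IsCMField.complexConj (E i) (y i) = -y i)
    (hm : ∀ k, ∃ m : ∀ i, (E i →+* ℂ) → ℕ, (∀ i, ¬P i → ∀ σ, m i σ = 0) ∧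
      a k = 2⁻¹ * ∑ i, ∑ σ, (m i σ : ℂ) * σ (x i) ∧
      c k = 2⁻¹ * ∑ i, ∑ σ, (m i σ : ℂ) * σ (y i))
    (hgen : ∀ h : ∀ i, (E i →+* ℂ) → ℚ, (∀ i σ, h i (bar σ) = -h i σ) →
      (∀ i, ¬P i → ∀ σ, h i σ = 0) →
      ∑ i, ∑ σ, (h i σ : ℂ) * σ (x i) = 0 → ∀ i σ, h i σ = 0) :
    ∃ f : ℂ →ₗ[ℚ] ℂ, (∀ k, f (a k) = c k) ∧ f 1 = 0 := by
  choose mk hmP hmx hmy using hm
  obtain ⟨f, hf⟩ := exists_add (ι := Option (Fin n')) (fun o => o.elim 1 fun k => a k)
    (fun o => o.elim 0 fun k => c k) (by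
    intro d hc
    rw [Fintype.sum_option] at hc ⊢
    simp only [Option.elim_none, Option.elim_some, mul_one, mul_zero, zero_add] at hc ⊢
    let Hh : ∀ i, (E i →+* ℂ) → ℚ := fun i σ => ∑ k, d (some k) * (mk k i σ : ℚ)
    have hs : ∀ (z : ∀ i, E i) (e : Fin n' → ℂ),
        (∀ k, e k = 2⁻¹ * ∑ i, ∑ σ, (mk k i σ : ℂ) * σ (z i)) →
        ∑ k, (d (some k) : ℂ) * e k = 2⁻¹ * ∑ i, ∑ σ, (Hh i σ : ℂ) * σ (z i) := by
      intro z e hd
      have h1 : ∀ i, ∑ σ : E i →+* ℂ, (Hh i σ : ℂ) * σ (z i) =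
          ∑ k, (d (some k) : ℂ) * ∑ σ : E i →+* ℂ, (mk k i σ : ℂ) * σ (z i) := by
        intro i
        simp only [Hh, Rat.cast_sum, Rat.cast_mul, Rat.cast_natCast, Finset.sum_mul,
          Finset.mul_sum]
        rw [Finset.sum_comm]
        exact Finset.sum_congr rfl fun k _ => Finset.sum_congr rfl fun σ _ => by ring
      rw [Finset.sum_congr rfl fun i _ => h1 i, Finset.sum_comm, Finset.mul_sum]
      refine Finset.sum_congr rfl fun k _ => ?_
      rw [hd, ← Finset.mul_sum]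
      ring
    rw [hs y _ hmy]
    rw [hs x _ hmx] at hc
    set T : ℂ := ∑ i, ∑ σ, (Hh i σ : ℂ) * σ (x i) with hT
    have hbar : ∀ z : ∀ i, E i, (∀ i, IsCMField.complexConj (E i) (z i) = -z i) → ∀ i,
        ∑ σ, (Hh i (bar σ) : ℂ) * σ (z i) = -∑ σ, (Hh i σ : ℂ) * σ (z i) := by
      intro z hz i
      rw [← sum_bar fun σ => (Hh i σ : ℂ) * σ (z i), ← Finset.sum_neg_distrib]
      refine Finset.sum_congr rfl fun σ _ => ?_
      rw [bar_skew (hz i)]
      ring
    have hconj : (starRingEnd ℂ) T = -T := by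
      rw [hT, map_sum, ← Finset.sum_neg_distrib]
      refine Finset.sum_congr rfl fun i _ => ?_
      rw [map_sum, ← Finset.sum_neg_distrib]
      refine Finset.sum_congr rfl fun σ _ => ?_
      rw [map_mul, ← bar_apply, bar_skew (hx i)]
      have e1 : (starRingEnd ℂ) ((Hh i σ : ℚ) : ℂ) = ((Hh i σ : ℚ) : ℂ) := map_ratCast _ _
      rw [e1]
      ring
    have hc2 := congrArg (starRingEnd ℂ) hc
    rw [map_add, map_mul, map_zero, hconj, map_inv₀] at hc2
    have e2 : (starRingEnd ℂ) (2 : ℂ) = 2 := map_ofNat _ 2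
    have e3 : (starRingEnd ℂ) ((d none : ℚ) : ℂ) = ((d none : ℚ) : ℂ) := map_ratCast _ _
    rw [e2, e3] at hc2
    have hT0 : T = 0 := by linear_combination hc - hc2
    have hP : ∀ i, ¬P i → ∀ σ, Hh i σ = 0 := fun i hi σ =>
      Finset.sum_eq_zero fun k _ => by rw [hmP k i hi σ, Nat.cast_zero, mul_zero]
    have h1 := hgen (fun i σ => Hh i σ - Hh i (bar σ)) (fun i σ => by rw [bar_bar]; ring)
      (fun i hi σ => by rw [hP i hi, hP i hi, sub_zero]) (by
      have e4 : ∀ i, ∑ σ, ((Hh i σ - Hh i (bar σ) : ℚ) : ℂ) * σ (x i) =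
          ∑ σ, (Hh i σ : ℂ) * σ (x i) - ∑ σ, (Hh i (bar σ) : ℂ) * σ (x i) := by
        intro i
        rw [← Finset.sum_sub_distrib]
        refine Finset.sum_congr rfl fun σ _ => ?_
        push_cast
        ring
      rw [Finset.sum_congr rfl fun i _ => e4 i, Finset.sum_sub_distrib,
        Finset.sum_congr rfl fun i _ => hbar x hx i, Finset.sum_neg_distrib, ← hT, hT0,
        sub_neg_eq_add, add_zero])
    have h2 : ∀ i σ, Hh i (bar σ) = Hh i σ := fun i σ => by
      have := h1 i σ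
      linarith
    have h4 : ∀ i, ∑ σ, (Hh i σ : ℂ) * σ (y i) = 0 := by
      intro i
      have h3 := hbar y hy i
      simp only [h2] at h3
      linear_combination (1 / 2 : ℂ) * h3
    rw [Finset.sum_congr rfl fun i _ => h4 i, Finset.sum_const_zero, mul_zero])
  exact ⟨f, fun k => hf (some k), hf none⟩

/-- Every Galois stable space of families of odd functions is the sum of its components. -/
def Splt (E : ι → Type) [∀ i, Field (E i)] : Prop :=
  ∀ V : Submodule ℚ (∀ i, (E i →+* ℂ) → ℚ), (∀ c ∈ V, ∀ i σ, c i (bar σ) = -c i σ) →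
    (∀ (s : ℂ ≃+* ℂ), ∀ c ∈ V, (fun i σ => c i (act s σ)) ∈ V) →
    ∀ c ∈ V, ∀ i, ∃ c' ∈ V, c' i = c i ∧ ∀ j, j ≠ i → c' j = 0

/-- Relations split, if the fields are independent. -/
theorem split_rel (hind : Splt E) {x : ∀ i, E i}
    (h : ∀ i, (E i →+* ℂ) → ℚ) (hodd : ∀ i σ, h i (bar σ) = -h i σ)
    (hrel : ∑ i, ∑ σ, (h i σ : ℂ) * σ (x i) = 0) (i : ι) :
    ∑ σ, (h i σ : ℂ) * σ (x i) = 0 := by
  classical
  let V : Submodule ℚ (∀ i, (E i →+* ℂ) → ℚ) :=
    { carrier := {c | (∀ i σ, c i (bar σ) = -c i σ) ∧ ∑ i, ∑ σ, (c i σ : ℂ) * σ (x i) = 0}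
      zero_mem' := ⟨fun i σ => by rw [Pi.zero_apply, Pi.zero_apply, Pi.zero_apply, neg_zero],
        Finset.sum_eq_zero fun i _ => Finset.sum_eq_zero fun σ _ => by
          rw [Pi.zero_apply, Pi.zero_apply, Rat.cast_zero, zero_mul]⟩
      add_mem' := fun {c d} hc hd => ⟨fun i σ => by
          rw [Pi.add_apply, Pi.add_apply, Pi.add_apply, hc.1, hd.1]; ring, by
          rw [← add_zero (0 : ℂ)]
          nth_rewrite 1 [← hc.2]
          rw [← hd.2, ← Finset.sum_add_distrib]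
          refine Finset.sum_congr rfl fun i _ => ?_
          rw [← Finset.sum_add_distrib]
          refine Finset.sum_congr rfl fun σ _ => ?_
          rw [Pi.add_apply, Pi.add_apply]
          push_cast
          ring⟩
      smul_mem' := fun q c hc => ⟨fun i σ => by
          rw [Pi.smul_apply, Pi.smul_apply, Pi.smul_apply, hc.1, smul_neg], by
          have h1 : ∀ i, ∑ σ, (((q • c) i σ : ℚ) : ℂ) * σ (x i) =
              (q : ℂ) * ∑ σ, (c i σ : ℂ) * σ (x i) := by
            intro i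
            rw [Finset.mul_sum]
            refine Finset.sum_congr rfl fun σ _ => ?_
            rw [Pi.smul_apply, Pi.smul_apply, smul_eq_mul]
            push_cast
            ring
          rw [Finset.sum_congr rfl fun i _ => h1 i, ← Finset.mul_sum, hc.2, mul_zero]⟩ }
  have hmem : ∀ c, c ∈ V ↔ (∀ i σ, c i (bar σ) = -c i σ) ∧
      ∑ i, ∑ σ, (c i σ : ℂ) * σ (x i) = 0 := fun c => Iff.rfl
  have hstab : ∀ (s : ℂ ≃+* ℂ), ∀ c ∈ V, (fun i σ => c i (act s σ)) ∈ V := by
    intro s c hc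
    obtain ⟨h1, h2⟩ := (hmem c).1 hc
    refine (hmem _).2 ⟨fun i σ => ?_, ?_⟩
    · have h3 := h1 i (act s σ)
      rw [← act_bar] at h3
      exact h3
    · apply s.injective
      rw [map_zero, map_sum, ← h2]
      refine Finset.sum_congr rfl fun i _ => ?_
      rw [map_sum]
      refine Fintype.sum_equiv (prm s : Equiv.Perm (E i →+* ℂ)) _ _ fun σ => ?_
      rw [map_mul, map_ratCast]
      rfl
  obtain ⟨c', hc', h1, h2⟩ := hind V (fun c hc => ((hmem c).1 hc).1) hstab h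
    ((hmem h).2 ⟨hodd, hrel⟩) i
  have h3 := ((hmem c').1 hc').2
  rw [Finset.sum_eq_single i (fun j _ hj => by
    rw [h2 j hj]
    exact Finset.sum_eq_zero fun σ _ => by rw [Pi.zero_apply, Rat.cast_zero, zero_mul])
    (fun hi => absurd (Finset.mem_univ _) hi), h1] at h3
  exact h3

/-- Independent complex conjugations. -/
theorem splt_of_conj (h : ∀ i, ∃ s : ℂ ≃+* ℂ, (∀ σ : E i →+* ℂ, act s σ = bar σ) ∧
    ∀ j, j ≠ i → ∀ σ : E j →+* ℂ, act s σ = σ) : Splt E := by
  intro V hodd hstab c hc i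
  obtain ⟨s, h1, h2⟩ := h i
  refine ⟨(2⁻¹ : ℚ) • (c - fun i σ => c i (act s σ)), V.smul_mem _ (V.sub_mem hc (hstab s c hc)),
    ?_, fun j hj => ?_⟩
  · funext σ
    change (2⁻¹ : ℚ) * (c i σ - c i (act s σ)) = c i σ
    rw [h1, hodd c hc]
    ring
  · funext σ
    change (2⁻¹ : ℚ) * (c j σ - c j (act s σ)) = 0
    rw [h2 j hj, sub_self, mul_zero]

end fields

/-! ### Linear algebra -/

theorem kill_bc {ι : Type} [Fintype ι] {V V' : Type} [AddCommGroup V] [Module ℚ V]
    [AddCommGroup V'] [Module ℚ V'] {U : ι → Type} [∀ i, AddCommGroup (U i)]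
    [∀ i, Module ℚ (U i)] (p : ∀ i, V →ₗ[ℚ] U i) (W : V →ₗ[ℚ] V')
    (h : ∀ v, (∀ i, p i v = 0) → W v = 0) {z : ℂ ⊗[ℚ] V}
    (hz : ∀ i, (p i).baseChange ℂ z = 0) : W.baseChange ℂ z = 0 := by
  classical
  let P : V →ₗ[ℚ] (∀ i, U i) := LinearMap.pi p
  have hk : LinearMap.ker P ≤ LinearMap.ker W := by
    intro v hv
    rw [LinearMap.mem_ker] at hv ⊢
    exact h v fun i => congrFun hv i
  obtain ⟨S, hS⟩ := ((LinearMap.ker P).liftQ W hk ∘ₗ
    (P.quotKerEquivRange.symm : LinearMap.range P →ₗ[ℚ] _)).exists_extend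
  have h1 : ∀ v, W v = ∑ i, S (Pi.single i (p i v)) := by
    intro v
    rw [← map_sum]
    have h2 : ∑ i, Pi.single i (p i v) = P v := by
      have h3 := Finset.univ_sum_single (P v)
      exact h3
    rw [h2]
    have h3 : S (P v) = ((LinearMap.ker P).liftQ W hk ∘ₗ
        (P.quotKerEquivRange.symm : LinearMap.range P →ₗ[ℚ] _)) ⟨P v, LinearMap.mem_range_self P v⟩ := by
      rw [← hS]
      rfl
    rw [h3]
    have h4 : P.quotKerEquivRange.symm ⟨P v, LinearMap.mem_range_self P v⟩ =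
        (LinearMap.ker P).mkQ v := by
      rw [LinearEquiv.symm_apply_eq]
      rfl
    change W v = (LinearMap.ker P).liftQ W hk (P.quotKerEquivRange.symm ⟨P v, _⟩)
    rw [h4, Submodule.mkQ_apply, Submodule.liftQ_apply]
  have h5 : ∀ z : ℂ ⊗[ℚ] V, W.baseChange ℂ z =
      ∑ i, (S ∘ₗ LinearMap.single ℚ U i).baseChange ℂ ((p i).baseChange ℂ z) := by
    intro z
    induction z with
    | zero => simp
    | add z z' h1 h2 =>
      rw [map_add, h1, h2, ← Finset.sum_add_distrib]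
      exact Finset.sum_congr rfl fun i _ => by rw [map_add, map_add]
    | tmul a v =>
      rw [LinearMap.baseChange_tmul, h1, TensorProduct.tmul_sum]
      refine Finset.sum_congr rfl fun i _ => ?_
      rw [LinearMap.baseChange_tmul, LinearMap.baseChange_tmul]
      rfl
  rw [h5]
  exact Finset.sum_eq_zero fun i _ => by rw [hz, map_zero]

/-! ### Several factors -/

/-- A factor of unitary type. -/
structure UF {g : ℕ} (A : AbVar g) where
  E : Type
  [field : Field E]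
  [number : NumberField E]
  [cm : IsCMField E]
  g' : ℕ
  B : AbVar g'
  m : ℕ
  ω : (E →+* ℂ) → Fin m → Module.End ℂ (ℂ ⊗[ℚ] B.H1)
  f : B.H1 →ₗ[ℚ] A.H1
  p : A.H1 →ₗ[ℚ] B.H1
  fac : Fac B A f p
  rich : SignRich E
  pos : m ≠ 0
  unit : CM.IsUnit B ω

attribute [instance] UF.field UF.number UF.cm

variable {g : ℕ} {A : AbVar g}

/-- **The centre comes from several independent factors.** -/
theorem rch_fam {ι : Type} [Fintype ι] (F : ι → UF A) (hind : Splt fun i => (F i).E)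
    (hder : DRigid A) (hcen : ∀ W ∈ A.CN, ∀ v, (∀ i, (F i).p v = 0) → W v = 0) : Rch A := by
  classical
  intro 𝔥 hX
  have hq := hX.full
  refine ⟨hder 𝔥 hq, fun n' b χ hbχ Z hZ => ?_⟩
  obtain ⟨X, ⟨hXN, hX𝔥⟩, hXg⟩ := exists_generic (𝔠 := A.CN ⊓ 𝔥)
    (inf_le_left.trans A.CN_le_ZA) χ
  choose x hx hxX using fun i => (F i).unit.cen _ (rs_CN (F i).fac hX hXN)
  choose y hy hyZ using fun i => (F i).unit.cen _ (rs_CN (F i).fac hX hZ)
  have hgen : ∀ i, ∀ T : Module.End ℚ (F i).B.H1,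
      (∀ Y ∈ (F i).B.NA, ∀ Z ∈ (F i).B.NA, T * (Y * Z - Z * Y) = (Y * Z - Z * Y) * T) →
      T * rs (F i).f (F i).p X = rs (F i).f (F i).p X * T → ∀ Z ∈ (F i).B.CN, T * Z = Z * T := by
    intro i T hT0 hT W hW
    have h := (F i).fac
    refine ((hX.map h).full.comm T ?_ W hW.1).symm
    rintro _ ⟨Q, hQ, rfl⟩
    obtain ⟨Z1, hZ1, d', hd', hQe, hcomm⟩ := hq.dec hQ
    have hZ1N : Z1 ∈ A.CN := ⟨hq.le hZ1, fun Y hY =>
      hq.comm Z1 (fun X hX => (hcomm X hX).symm) Y hY⟩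
    have hT' : ((F i).f ∘ₗ T ∘ₗ (F i).p : Module.End ℚ A.H1) * X =
        X * ((F i).f ∘ₗ T ∘ₗ (F i).p : Module.End ℚ A.H1) := by
      refine LinearMap.ext fun v => ?_
      change (F i).f (T ((F i).p ((X : Module.End ℚ A.H1) v))) =
        (X : Module.End ℚ A.H1) ((F i).f (T ((F i).p v)))
      have h2 : T (rs (F i).f (F i).p X ((F i).p v)) = rs (F i).f (F i).p X (T ((F i).p v)) :=
        LinearMap.congr_fun hT ((F i).p v)
      rw [p_comm h hXN.1, h2, rs_apply, h.fix hXN.1]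
    have hT1 := A.comm_of_generic hbχ (X := X) (R := ⟨Z1, A.CN_le_ZA hZ1N⟩)
      (fun i j hij => hXg i j hij ⟨Z1, A.CN_le_ZA hZ1N⟩ ⟨hZ1N, hZ1⟩) hT'
    have e1 : T * rs (F i).f (F i).p Z1 = rs (F i).f (F i).p Z1 * T := by
      refine LinearMap.ext fun u => ?_
      change T ((F i).p (Z1 ((F i).f u))) = (F i).p (Z1 ((F i).f (T u)))
      have h2 := LinearMap.congr_fun hT1 ((F i).f u)
      change (F i).f (T ((F i).p (Z1 ((F i).f u)))) = Z1 ((F i).f (T ((F i).p ((F i).f u)))) at h2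
      rw [h.pf] at h2
      rw [← h2, h.pf]
    have e2 : T * rs (F i).f (F i).p d' = rs (F i).f (F i).p d' * T := by
      clear hQe
      induction hd' using Submodule.span_induction with
      | mem z hz =>
        obtain ⟨x, hx, y, hy, rfl⟩ := hz
        rw [map_sub, h.rs_mul (hX.le hy), h.rs_mul (hX.le hx)]
        exact hT0 _ (h.rs_NA (hX.le hx)) _ (h.rs_NA (hX.le hy))
      | zero => rw [map_zero, mul_zero, zero_mul]
      | add a b _ _ ha hb => rw [map_add, mul_add, add_mul, ha, hb]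
      | smul c a _ ha => rw [map_smul, mul_smul_comm, smul_mul_assoc, ha]
    rw [hQe, map_add, add_mul, mul_add, e1, e2]
  obtain ⟨φ, hφ, hφ1⟩ := exists_f2 (fun i => Nontrivial (Module.End ℂ (ℂ ⊗[ℚ] (F i).B.H1)))
    (a := fun k => χ k X) (c := fun k => χ k ⟨Z, A.CN_le_ZA hZ⟩) hx hy (fun k => by
      by_cases h0 : ∀ i, (F i).p.baseChange ℂ (b k) = 0
      · have hchi : ∀ (W : A.ZA), (W : Module.End ℚ A.H1) ∈ A.CN → χ k W = 0 := by
          intro W hW
          have h1 := kill_bc (fun i => (F i).p) (W : Module.End ℚ A.H1) (hcen W hW) h0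
          have h2 := hbχ k W
          rw [h1] at h2
          exact (smul_eq_zero.1 h2.symm).resolve_right (b.ne_zero k)
        refine ⟨fun _ _ => 0, fun _ _ _ => rfl, ?_, ?_⟩
        · rw [hchi X hXN]
          simp
        · rw [hchi ⟨Z, A.CN_le_ZA hZ⟩ hZ]
          simp
      · push Not at h0
        obtain ⟨i, hi⟩ := h0
        obtain ⟨m, h1, h2⟩ := exists_mult (F i).unit (x i) (y i) hi
          (a := χ k X) (b := χ k ⟨Z, A.CN_le_ZA hZ⟩) (by
            rw [← hxX, ← p_comm_bc (F i).fac hXN.1, hbχ k X, map_smul]) (by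
            rw [← hyZ, ← p_comm_bc (F i).fac hZ.1]
            have h2 := hbχ k ⟨Z, A.CN_le_ZA hZ⟩
            change Z.baseChange ℂ (b k) = _ at h2
            rw [h2, map_smul])
        have key : ∀ z : ∀ j, (F j).E, ∑ j, ∑ σ, (((Pi.single i m :
            ∀ j, ((F j).E →+* ℂ) → ℕ) j σ : ℕ) : ℂ) * σ (z j) = ∑ σ, (m σ : ℂ) * σ (z i) := by
          intro z
          rw [Finset.sum_eq_single i]
          · rw [Pi.single_eq_same]
          · intro j _ hj
            rw [Pi.single_eq_of_ne hj]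
            simp
          · intro hi
            exact absurd (Finset.mem_univ _) hi
        refine ⟨Pi.single i m, fun j hj σ => ?_, ?_, ?_⟩
        · by_cases hji : j = i
          · subst hji
            exfalso
            apply hj
            refine ⟨⟨1, 0, fun h1 => hi ?_⟩⟩
            exact LinearMap.congr_fun h1 _
          · rw [Pi.single_eq_of_ne hji]
            rfl
        · rw [key x]
          exact h1
        · rw [key y]
          exact h2)
    (fun h hodd hP hrel i σ => by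
      by_cases hi : Nontrivial (Module.End ℂ (ℂ ⊗[ℚ] (F i).B.H1))
      · have h1 := split_rel hind h hodd hrel i
        have h2 := no_rel (F i).rich (F i).pos (F i).unit (hx i) (hxX i) (hgen i) (h i)
          (hodd i) h1
        exact congrFun h2 σ
      · exact hP i hi σ)
  exact ⟨X, hXN, hX𝔥, φ, hφ, hφ1⟩

/-! ### Products -/

/-- Products of an abelian variety of CM type with a rigid one. -/
theorem dRigid_comm {g₁ g₂ : ℕ} {B : AbVar g₁} {C : AbVar g₂} {f : B.H1 →ₗ[ℚ] A.H1}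
    {p : A.H1 →ₗ[ℚ] B.H1} {f' : C.H1 →ₗ[ℚ] A.H1} {p' : A.H1 →ₗ[ℚ] C.H1} (h : Fac B A f p)
    (h' : Fac C A f' p') (hs : ∀ w, f (p w) + f' (p' w) = w)
    (hcB : ∀ X ∈ B.NA, ∀ Y ∈ B.NA, X * Y = Y * X) (hC : Rigid C) : DRigid A := by
  intro 𝔥 hq X hXN Y hYN
  have hcall : C.NA ≤ 𝔥.map (rs f' p') := hC.all _ (full_map h' hq)
  obtain ⟨X', hX', eX⟩ := hcall (h'.rs_NA hXN)
  obtain ⟨Y', hY', eY⟩ := hcall (h'.rs_NA hYN)
  have e : X * Y - Y * X = X' * Y' - Y' * X' := by
    refine ext_parts h h' hs (A.NA_bracket hXN hYN)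
      (A.NA_bracket (hq.le hX') (hq.le hY')) ?_ ?_
    · rw [map_sub, map_sub, h.rs_mul hYN, h.rs_mul hXN, h.rs_mul (hq.le hY'),
        h.rs_mul (hq.le hX'), hcB _ (h.rs_NA hXN) _ (h.rs_NA hYN), sub_self,
        hcB _ (h.rs_NA (hq.le hX')) _ (h.rs_NA (hq.le hY')), sub_self]
    · rw [map_sub, map_sub, h'.rs_mul hYN, h'.rs_mul hXN, h'.rs_mul (hq.le hY'),
        h'.rs_mul (hq.le hX'), eX, eY]
  rw [e]
  exact hq.br X' hX' Y' hY'

end Pool.Agent.L0h12.PT
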