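import Pool.Agent.L0h12.PT.Det
import Pool.Agent.R917.DT.Fct

/-!
# Products of abelian varieties with complex multiplication and rigid abelian varieties
-/

set_option autoImplicit false
set_option linter.unusedSectionVars false
set_option linter.unusedVariables false

open Module Function TensorProduct Matrix NumberField

noncomputable section

namespace Pool.Agent.L0h12.PT

open Pool.Agent.Y102 Pool.Agent.W516.DR Pool.Agent.H204R3.GP
  Pool.Agent.TH119.MX Pool.Agent.R917 Pool.Agent.N208.AM Pool.Agent.L0h12.CM Pool.Agent.R917.DT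

/-- The subspace is a subalgebra which contains the derivatives of the periods. -/
structure XF {g : ℕ} (A : AbVar g) (𝔥 : Submodule ℚ (Module.End ℚ A.H1)) : Prop where
  le : 𝔥 ≤ A.NA
  br : ∀ X ∈ 𝔥, ∀ Y ∈ 𝔥, X * Y - Y * X ∈ 𝔥
  x0 : ∀ (D : Derivation QBar ℂ ℂ) (lam : ℂ →ₗ[ℚ] ℚ), X0 A.basis tau D lam ∈ 𝔥

theorem XF.full {g : ℕ} {A : AbVar g} {𝔥 : Submodule ℚ (Module.End ℚ A.H1)} (h : XF A 𝔥) :
    A.Full 𝔥 := full_of_X0 A h.le h.br h.x0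

/-- Everything is reached from such a subalgebra, by replicas. -/
def Rch {g : ℕ} (A : AbVar g) : Prop := ∀ 𝔥 : Submodule ℚ (Module.End ℚ A.H1), XF A 𝔥 →
  (∀ X ∈ A.NA, ∀ Y ∈ A.NA, X * Y - Y * X ∈ 𝔥) ∧
  ∀ (n' : ℕ) (b : Basis (Fin n') ℂ (ℂ ⊗[ℚ] A.H1)) (χ : Fin n' → (A.ZA →ₗ[ℚ] ℂ)),
    (∀ k (R : A.ZA), (R : Module.End ℚ A.H1).baseChange ℂ (b k) = χ k R • b k) →
    ∀ (Z : Module.End ℚ A.H1) (hZ : Z ∈ A.CN), ∃ (X : Module.End ℚ A.H1) (hX : X ∈ A.CN),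
      X ∈ 𝔥 ∧ ∃ f : ℂ →ₗ[ℚ] ℂ,
        (∀ k, f (χ k ⟨X, A.CN_le_ZA hX⟩) = χ k ⟨Z, A.CN_le_ZA hZ⟩) ∧ f 1 = 0

/-- rigid: without centre, and without proper full subalgebras -/
structure Rigid {g : ℕ} (A : AbVar g) : Prop where
  cen : ∀ X ∈ A.CN, X = 0
  all : ∀ 𝔥 : Submodule ℚ (Module.End ℚ A.H1), A.Full 𝔥 → A.NA ≤ 𝔥

section funct

variable {E : Type} [Field E] [NumberField E] [IsCMField E]

/-- The additive function, in terms of the multiplicities. -/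
theorem exists_f' {n' : ℕ} {a c : Fin n' → ℂ} {x y : E}
    (hx : IsCMField.complexConj E x = -x) (hy : IsCMField.complexConj E y = -y)
    (hm : ∀ k, ∃ m : (E →+* ℂ) → ℕ, a k = 2⁻¹ * ∑ σ, (m σ : ℂ) * σ x ∧
      c k = 2⁻¹ * ∑ σ, (m σ : ℂ) * σ y)
    (hgen : ∀ h : (E →+* ℂ) → ℚ, (∀ σ, h (bar σ) = -h σ) →
      ∑ σ, (h σ : ℂ) * σ x = 0 → h = 0) :
    ∃ f : ℂ →ₗ[ℚ] ℂ, (∀ k, f (a k) = c k) ∧ f 1 = 0 := by
  choose mk hmx hmy using hm
  obtain ⟨f, hf⟩ := exists_add (ι := Option (Fin n')) (fun o => o.elim 1 fun k => a k)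
    (fun o => o.elim 0 fun k => c k) (by
    intro d hc
    rw [Fintype.sum_option] at hc ⊢
    simp only [Option.elim_none, Option.elim_some, mul_one, mul_zero, zero_add] at hc ⊢
    let Hh : (E →+* ℂ) → ℚ := fun σ => ∑ k, d (some k) * (mk k σ : ℚ)
    have hs : ∀ (z : E) (e : Fin n' → ℂ), (∀ k, e k = 2⁻¹ * ∑ σ, (mk k σ : ℂ) * σ z) →
        ∑ k, (d (some k) : ℂ) * e k = 2⁻¹ * ∑ σ, (Hh σ : ℂ) * σ z := by
      intro z e hd
      simp only [hd, Hh, Rat.cast_sum, Rat.cast_mul, Rat.cast_natCast, Finset.sum_mul,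
        Finset.mul_sum]
      rw [Finset.sum_comm]
      exact Finset.sum_congr rfl fun σ _ => Finset.sum_congr rfl fun k _ => by ring
    rw [hs y _ hmy]
    rw [hs x _ hmx] at hc
    set T : ℂ := ∑ σ, (Hh σ : ℂ) * σ x with hT
    have hbar : ∀ z : E, IsCMField.complexConj E z = -z →
        ∑ σ, (Hh (bar σ) : ℂ) * σ z = -∑ σ, (Hh σ : ℂ) * σ z := by
      intro z hz
      rw [← sum_bar fun σ => (Hh σ : ℂ) * σ z, ← Finset.sum_neg_distrib]
      refine Finset.sum_congr rfl fun σ _ => ?_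
      rw [bar_skew hz]
      ring
    have hconj : (starRingEnd ℂ) T = -T := by
      rw [hT, map_sum, ← Finset.sum_neg_distrib]
      refine Finset.sum_congr rfl fun σ _ => ?_
      rw [map_mul, ← bar_apply, bar_skew hx]
      have e1 : (starRingEnd ℂ) ((Hh σ : ℚ) : ℂ) = ((Hh σ : ℚ) : ℂ) := map_ratCast _ _
      rw [e1]
      ring
    have hc2 := congrArg (starRingEnd ℂ) hc
    rw [map_add, map_mul, map_zero, hconj, map_inv₀] at hc2
    have e2 : (starRingEnd ℂ) (2 : ℂ) = 2 := map_ofNat _ 2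
    have e3 : (starRingEnd ℂ) ((d none : ℚ) : ℂ) = ((d none : ℚ) : ℂ) := map_ratCast _ _
    rw [e2, e3] at hc2
    have hT0 : T = 0 := by linear_combination hc - hc2
    have h1 := hgen (fun σ => Hh σ - Hh (bar σ)) (fun σ => by rw [bar_bar]; ring) (by
      have e4 : ∑ σ, ((Hh σ - Hh (bar σ) : ℚ) : ℂ) * σ x =
          ∑ σ, (Hh σ : ℂ) * σ x - ∑ σ, (Hh (bar σ) : ℂ) * σ x := by
        rw [← Finset.sum_sub_distrib]
        refine Finset.sum_congr rfl fun σ _ => ?_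
        push_cast
        ring
      rw [e4, hbar x hx, ← hT, hT0, sub_neg_eq_add, add_zero])
    have h2 : ∀ σ, Hh (bar σ) = Hh σ := fun σ => by
      have := congrFun h1 σ
      simp only [Pi.zero_apply] at this
      linarith
    have h3 := hbar y hy
    simp only [h2] at h3
    have h4 : ∑ σ, (Hh σ : ℂ) * σ y = 0 := by linear_combination (1 / 2 : ℂ) * h3
    rw [h4, mul_zero])
  exact ⟨f, fun k => hf (some k), hf none⟩

end funct

section unit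

variable {g : ℕ} {A : AbVar g} {E : Type} [Field E] [NumberField E] [IsCMField E] {m : ℕ}
  {ω : (E →+* ℂ) → Fin m → Module.End ℂ (ℂ ⊗[ℚ] A.H1)}

/-- the unitary type -/
theorem rch_U (hE : SignRich E) (hm : m = 1 ∨ (Even m ∧ m ≠ 0)) (hA : CM.IsUnit A ω) : Rch A := by
  intro 𝔥 hX0
  have hq := hX0.full
  have hm0 : m ≠ 0 := by
    rcases hm with h | h
    · omega
    · exact h.2
  have hder : ∀ X ∈ A.NA, ∀ Y ∈ A.NA, X * Y - Y * X ∈ 𝔥 := by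
    rcases hm with h | h
    · subst h
      intro X hX Y hY
      rw [comm_one hA X hX Y hY]
      exact Submodule.zero_mem _
    · exact der_even' hq h.1 hA
  refine ⟨hder, fun n' b χ hb Y hY => ?_⟩
  rcases subsingleton_or_nontrivial (Module.End ℂ (ℂ ⊗[ℚ] A.H1)) with hs | hnt
  · refine ⟨0, A.CN.zero_mem, 𝔥.zero_mem, 0, fun k => ?_, rfl⟩
    exfalso
    apply b.ne_zero k
    have h1 : (1 : Module.End ℂ (ℂ ⊗[ℚ] A.H1)) = 0 := Subsingleton.elim _ _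
    have h2 := LinearMap.congr_fun h1 (b k)
    exact h2
  obtain ⟨X, ⟨hXN, hXq⟩, hXg⟩ := exists_generic (𝔠 := A.CN ⊓ 𝔥)
    (inf_le_left.trans A.CN_le_ZA) χ
  have hgen : ∀ T : Module.End ℚ A.H1,
      (∀ Y ∈ A.NA, ∀ Z ∈ A.NA, T * (Y * Z - Z * Y) = (Y * Z - Z * Y) * T) →
      T * X = X * T → ∀ Z ∈ A.CN, T * Z = Z * T := by
    intro T hT hTX Z hZ
    have h1 : ∀ Q ∈ 𝔥, Q * T = T * Q := by
      intro Q hQ
      obtain ⟨Z', hZ', d', hd', hQe, hcomm⟩ := hq.dec hQ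
      have hZ'N : Z' ∈ A.CN := ⟨hq.le hZ', fun Y hY =>
        hq.comm Z' (fun X hX => (hcomm X hX).symm) Y hY⟩
      have e1 : T * Z' = Z' * T :=
        A.comm_of_generic hb (X := X) (R := ⟨Z', A.CN_le_ZA hZ'N⟩)
          (fun i j hij => hXg i j hij ⟨Z', A.CN_le_ZA hZ'N⟩ ⟨hZ'N, hZ'⟩) hTX
      have e2 : T * d' = d' * T := by
        clear hQe
        induction hd' using Submodule.span_induction with
        | mem z hz =>
          obtain ⟨x, hx, y, hy, rfl⟩ := hz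
          exact hT x (hq.le hx) y (hq.le hy)
        | zero => rw [mul_zero, zero_mul]
        | add a b _ _ ha hb => rw [mul_add, add_mul, ha, hb]
        | smul c a _ ha => rw [mul_smul_comm, smul_mul_assoc, ha]
      rw [hQe, add_mul, mul_add, e1, e2]
    exact (hq.comm T h1 Z hZ.1).symm
  obtain ⟨x, hx, hX'⟩ := hA.cen X hXN
  obtain ⟨y, hy, hY'⟩ := hA.cen Y hY
  obtain ⟨f, hf, hf1⟩ := exists_f hA hb (X := X) (Y := ⟨Y, A.CN_le_ZA hY⟩) hx hy hX' hY'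
    (fun h hodd hrel => no_rel hE hm0 hA hx hX' hgen h hodd hrel)
  exact ⟨X, hXN, hXq, f, hf, hf1⟩

end unit

section prod

variable {g g₁ g₂ : ℕ} {A : AbVar g} {B : AbVar g₁} {C : AbVar g₂}
  {f : B.H1 →ₗ[ℚ] A.H1} {p : A.H1 →ₗ[ℚ] B.H1} {f' : C.H1 →ₗ[ℚ] A.H1} {p' : A.H1 →ₗ[ℚ] C.H1}

theorem XF.map (h : Fac B A f p) {𝔥 : Submodule ℚ (Module.End ℚ A.H1)} (hX : XF A 𝔥) :
    XF B (𝔥.map (rs f p)) where
  le := by
    rintro _ ⟨Y, hY, rfl⟩
    exact h.rs_NA (hX.le hY)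
  br := by
    rintro _ ⟨Y, hY, rfl⟩ _ ⟨Z, hZ, rfl⟩
    refine ⟨Y * Z - Z * Y, hX.br Y hY Z hZ, ?_⟩
    rw [map_sub, h.rs_mul (hX.le hZ), h.rs_mul (hX.le hY)]
  x0 := fun D lam => ⟨_, hX.x0 D lam, h.rs_X0 D lam⟩

theorem ext_parts (h : Fac B A f p) (h' : Fac C A f' p') (hs : ∀ w, f (p w) + f' (p' w) = w)
    {X Y : Module.End ℚ A.H1} (hX : X ∈ A.NA) (hY : Y ∈ A.NA)
    (h1 : rs f p X = rs f p Y) (h2 : rs f' p' X = rs f' p' Y) : X = Y := by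
  have e : ∀ {Z : Module.End ℚ A.H1}, Z ∈ A.NA → ∀ w,
      Z w = f (rs f p Z (p w)) + f' (rs f' p' Z (p' w)) := fun {Z} hZ w => by
    rw [rs_apply, rs_apply, h.fix hZ, h'.fix hZ, ← map_add, hs]
  refine LinearMap.ext fun w => ?_
  rw [e hX, e hY, h1, h2]

theorem p_comm (h : Fac B A f p) {X : Module.End ℚ A.H1} (hX : X ∈ A.NA) (v : A.H1) :
    p (X v) = rs f p X (p v) := by
  have h1 := congrArg (fun T : Module.End ℚ A.H1 => T v) (A.NA_comm hX h.mem_EA)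
  change X (f (p v)) = f (p (X v)) at h1
  rw [rs_apply, h1, h.pf]

theorem p_comm_bc (h : Fac B A f p) {X : Module.End ℚ A.H1} (hX : X ∈ A.NA)
    (z : ℂ ⊗[ℚ] A.H1) :
    p.baseChange ℂ (X.baseChange ℂ z) = (rs f p X).baseChange ℂ (p.baseChange ℂ z) := by
  induction z with
  | zero => rw [map_zero, map_zero, map_zero]
  | add z z' h1 h2 => rw [map_add, map_add, map_add, map_add, h1, h2]
  | tmul a w =>
    rw [LinearMap.baseChange_tmul, LinearMap.baseChange_tmul, LinearMap.baseChange_tmul,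
      LinearMap.baseChange_tmul, p_comm h hX]

theorem fp_bc (h : Fac B A f p) (h' : Fac C A f' p') (hs : ∀ w, f (p w) + f' (p' w) = w)
    {X : Module.End ℚ A.H1} (hX : X ∈ A.NA) (h0 : rs f' p' X = 0) (z : ℂ ⊗[ℚ] A.H1) :
    X.baseChange ℂ z = f.baseChange ℂ ((rs f p X).baseChange ℂ (p.baseChange ℂ z)) := by
  induction z with
  | zero => rw [map_zero, map_zero, map_zero, map_zero]
  | add z z' h1 h2 => rw [map_add, map_add, map_add, map_add, h1, h2]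
  | tmul a w =>
    rw [LinearMap.baseChange_tmul, LinearMap.baseChange_tmul, LinearMap.baseChange_tmul,
      LinearMap.baseChange_tmul]
    congr 1
    have e : X w = f (rs f p X (p w)) + f' (rs f' p' X (p' w)) := by
      rw [rs_apply, rs_apply, h.fix hX, h'.fix hX, ← map_add, hs]
    rw [e, h0, LinearMap.zero_apply, map_zero, add_zero]

variable {E : Type} [Field E] [NumberField E] [IsCMField E]
  {ω : (E →+* ℂ) → Fin 1 → Module.End ℂ (ℂ ⊗[ℚ] B.H1)}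

/-- **Products.** -/
theorem rch_prod (h : Fac B A f p) (h' : Fac C A f' p') (hs : ∀ w, f (p w) + f' (p' w) = w)
    (hE : SignRich E) (hB : CM.IsUnit B ω) (hC : Rigid C) : Rch A := by
  intro 𝔥 hX
  have hq := hX.full
  have hb := hX.map h
  have hcall : C.NA ≤ 𝔥.map (rs f' p') := hC.all _ (hX.map h').full
  have hcB : ∀ X ∈ B.NA, ∀ Y ∈ B.NA, X * Y = Y * X := fun X hX Y hY =>
    sub_eq_zero.1 (comm_one hB X hX Y hY)
  have hder : ∀ X ∈ A.NA, ∀ Y ∈ A.NA, X * Y - Y * X ∈ 𝔥 := by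
    intro X hXN Y hYN
    obtain ⟨X', hX', eX⟩ := hcall (h'.rs_NA hXN)
    obtain ⟨Y', hY', eY⟩ := hcall (h'.rs_NA hYN)
    have e : X * Y - Y * X = X' * Y' - Y' * X' := by
      refine ext_parts h h' hs (A.NA_bracket hXN hYN)
        (A.NA_bracket (hX.le hX') (hX.le hY')) ?_ ?_
      · rw [map_sub, map_sub, h.rs_mul hYN, h.rs_mul hXN, h.rs_mul (hX.le hY'),
          h.rs_mul (hX.le hX'), hcB _ (h.rs_NA hXN) _ (h.rs_NA hYN), sub_self,
          hcB _ (h.rs_NA (hX.le hX')) _ (h.rs_NA (hX.le hY')), sub_self]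
      · rw [map_sub, map_sub, h'.rs_mul hYN, h'.rs_mul hXN, h'.rs_mul (hX.le hY'),
          h'.rs_mul (hX.le hX'), eX, eY]
    rw [e]
    exact hX.br X' hX' Y' hY'
  refine ⟨hder, fun n' b χ hbχ Z hZ => ?_⟩
  have hCN0 : ∀ W ∈ A.CN, rs f' p' W = 0 := by
    intro W hW
    refine hC.cen _ ⟨h'.rs_NA hW.1, fun Y hY => ?_⟩
    obtain ⟨Y', hY', rfl⟩ := hcall hY
    rw [← h'.rs_mul hW.1, ← h'.rs_mul (hX.le hY'), hW.2 Y' (hX.le hY')]
  have hchi : ∀ (W : Module.End ℚ A.H1) (hW : W ∈ A.CN) (k : Fin n'),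
      p.baseChange ℂ (b k) = 0 → χ k ⟨W, A.CN_le_ZA hW⟩ = 0 := by
    intro W hW k hk
    have h1 := fp_bc h h' hs hW.1 (hCN0 W hW) (b k)
    rw [hk, map_zero, map_zero] at h1
    have h2 := hbχ k ⟨W, A.CN_le_ZA hW⟩
    change W.baseChange ℂ (b k) = _ at h2
    rw [h1] at h2
    exact (smul_eq_zero.1 h2.symm).resolve_right (b.ne_zero k)
  rcases subsingleton_or_nontrivial (Module.End ℂ (ℂ ⊗[ℚ] B.H1)) with hs1 | hnt
  · refine ⟨0, A.CN.zero_mem, 𝔥.zero_mem, 0, fun k => ?_, rfl⟩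
    rw [hchi Z hZ k, LinearMap.zero_apply]
    have h1 : (1 : Module.End ℂ (ℂ ⊗[ℚ] B.H1)) = 0 := Subsingleton.elim _ _
    exact LinearMap.congr_fun h1 (p.baseChange ℂ (b k))
  obtain ⟨n₁, b₁, χ₁, hb₁⟩ := B.exists_basis
  obtain ⟨R, ⟨hRN, Q, hQ, hQR⟩, hRg⟩ := exists_generic (𝔠 := B.CN ⊓ 𝔥.map (rs f p))
    (inf_le_left.trans B.CN_le_ZA) χ₁
  have hgen : ∀ T : Module.End ℚ B.H1,
      (∀ Y ∈ B.NA, ∀ Z ∈ B.NA, T * (Y * Z - Z * Y) = (Y * Z - Z * Y) * T) →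
      T * R = R * T → ∀ Z ∈ B.CN, T * Z = Z * T := by
    intro T _ hT Z hZ
    refine (hb.full.comm T ?_ Z hZ.1).symm
    intro P hP
    have hPC : P ∈ B.CN := ⟨hb.le hP, fun Y hY => hcB Y hY P (hb.le hP)⟩
    exact (B.comm_of_generic hb₁ (X := R) (R := ⟨P, B.CN_le_ZA hPC⟩)
      (fun i j hij => hRg i j hij ⟨P, B.CN_le_ZA hPC⟩ ⟨hPC, hP⟩) hT).symm
  obtain ⟨Z', hZ', d', hd', hQe, hcomm⟩ := hq.dec hQ
  have hZ'N : Z' ∈ A.CN := ⟨hq.le hZ', fun Y hY =>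
    hq.comm Z' (fun X hX => (hcomm X hX).symm) Y hY⟩
  have hd0 : rs f p d' = 0 := by
    clear hQe
    induction hd' using Submodule.span_induction with
    | mem z hz =>
      obtain ⟨x, hx, y, hy, rfl⟩ := hz
      rw [map_sub, h.rs_mul (hX.le hy), h.rs_mul (hX.le hx),
        hcB _ (h.rs_NA (hX.le hx)) _ (h.rs_NA (hX.le hy)), sub_self]
    | zero => rw [map_zero]
    | add a b _ _ ha hb => rw [map_add, ha, hb, add_zero]
    | smul c a _ ha => rw [map_smul, ha, smul_zero]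
  have hR : rs f p Z' = R := by
    rw [← hQR, hQe, map_add, hd0, add_zero]
  have hZB : rs f p Z ∈ B.CN := ⟨h.rs_NA hZ.1, fun Y hY => hcB Y hY _ (h.rs_NA hZ.1)⟩
  obtain ⟨x, hx, hX'⟩ := hB.cen R hRN
  obtain ⟨y, hy, hY'⟩ := hB.cen _ hZB
  obtain ⟨φ, hφ, hφ1⟩ := exists_f' (a := fun k => χ k ⟨Z', A.CN_le_ZA hZ'N⟩)
    (c := fun k => χ k ⟨Z, A.CN_le_ZA hZ⟩) hx hy (fun k => by
      by_cases h0 : p.baseChange ℂ (b k) = 0
      · refine ⟨fun _ => 0, ?_, ?_⟩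
        · rw [hchi Z' hZ'N k h0]
          simp
        · rw [hchi Z hZ k h0]
          simp
      · refine exists_mult hB x y h0 ?_ ?_
        · rw [← hX', ← hR, ← p_comm_bc h hZ'N.1]
          have h2 := hbχ k ⟨Z', A.CN_le_ZA hZ'N⟩
          change Z'.baseChange ℂ (b k) = _ at h2
          rw [h2, map_smul]
        · rw [← hY', ← p_comm_bc h hZ.1]
          have h2 := hbχ k ⟨Z, A.CN_le_ZA hZ⟩
          change Z.baseChange ℂ (b k) = _ at h2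
          rw [h2, map_smul])
    (fun h1 hodd hrel => no_rel hE one_ne_zero hB hx hX' hgen h1 hodd hrel)
  exact ⟨Z', hZ'N, hZ', φ, hφ, hφ1⟩

end prod

section det

variable {g g' : ℕ} {A : AbVar g}

/-- **Determined.** -/
theorem det_rch (hR : Rch A) {𝔥 : Submodule ℚ (Module.End ℚ A.H1)} (hX0 : XF A 𝔥)
    (hRC : RC 𝔥) : A.NA ≤ 𝔥 := by
  obtain ⟨hder, hcen⟩ := hR 𝔥 hX0
  intro X hX
  have hder' : Pool.Agent.Y102.der A.NA ≤ 𝔥 := by
    unfold Pool.Agent.Y102.der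
    rw [Submodule.span_le]
    rintro _ ⟨X, hX, Y, hY, rfl⟩
    exact hder X hX Y hY
  obtain ⟨Y, hY, δ, hδ, hXe, hcomm⟩ := Pool.Agent.N208.AM.full_NA.dec hX
  rw [hXe]
  refine 𝔥.add_mem ?_ (hder' hδ)
  have hYC : Y ∈ A.CN := ⟨hY, fun Z hZ => (hcomm Z hZ).symm⟩
  obtain ⟨n', b, χ, hb⟩ := A.exists_basis
  obtain ⟨X, hXN, hXq, f, hf, -⟩ := hcen n' b χ hb Y hYC
  exact rc_mem hRC (x := fun k => χ k ⟨X, A.CN_le_ZA hXN⟩)
    (y := fun k => χ k ⟨Y, A.CN_le_ZA hYC⟩) hXq (fun k => hb k ⟨X, A.CN_le_ZA hXN⟩)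
    (fun k => hb k ⟨Y, A.CN_le_ZA hYC⟩) f.toAddMonoidHom hf

/-- **Factors.** -/
theorem detJ_rch {B : AbVar g'} {f : A.H1 →ₗ[ℚ] B.H1} {p : B.H1 →ₗ[ℚ] A.H1} (h : Fac A B f p)
    (hR : Rch B) : DetJ A := by
  intro 𝔥 hle hbr h0 hRC r
  have hX0 : XF B (Fac.qq f p 𝔥) := by
    refine ⟨fun X hX => hX.1, fun X hX Y hY => ⟨B.NA_bracket hX.1 hY.1, ?_⟩,
      fun D lam => ⟨B.LA_le_NA ?_, ?_⟩⟩
    · change rs f p (X * Y - Y * X) ∈ 𝔥
      rw [map_sub, h.rs_mul hY.1, h.rs_mul hX.1]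
      exact hbr _ hX.2 _ hY.2
    · rw [AbVar.LA_eq]
      exact X0_mem B.basis AbVar.tau_ne D lam
    · change rs f p (X0 B.basis tau D lam) ∈ 𝔥
      rw [h.rs_X0]
      exact h0 D lam
  have h1 := det_rch hR hX0 (h.qq_RC hRC) (B.MA_le_NA (B.J_mem r))
  have h2 : rs f p (B.cmpE r AbVar.JJ) ∈ 𝔥 := h1.2
  rwa [h.rs_J] at h2

end det

end Pool.Agent.L0h12.PT
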